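import Pool.Agent.Run7.h905.CB.Cd

/-!
# Irreducible polynomials `g - μ`
-/

set_option autoImplicit false
set_option linter.all false
set_option maxHeartbeats 400000

open Polynomial

namespace Run7.h905.CB

open Pool.Agent.H470 Pool.Agent

/-- **A positive proportion of the polynomials `g - μ` is irreducible.** -/
theorem nc (n : ℕ) (hn : 1 < n) : ∃ C0 : ℕ, ∀ (F : Type) [Field F] [Finite F] (ζ : F),
    IsPrimitiveRoot ζ n → ∀ g : F[X], g.Monic → g.natDegree = n → C0 < Nat.card F →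
    Nat.card F ≤ 2 * n ^ n * {μ : F | Irreducible (g - C μ)}.ncard := by
  classical
  obtain ⟨C0, hC0⟩ := cyc (fun _ : Unit => n) (fun _ => by omega) ⟨()⟩ 1
  refine ⟨C0, ?_⟩
  intro F _ _ ζ hζ g hg hgn hcard
  let k := AlgebraicClosure F
  obtain ⟨M, iF, iK, iX, iT, Ψ, t, β, hΨ, ht, hβ, htt, hββ, htβ⟩ :=
    inf_data k (by omega : 0 < n) one_pos (by omega : n ≠ 1) (by rwa [mul_one]) hg hgn
      (ι := Empty) (d := fun i => i.elim) (fun i => i.elim)
  have h1 := hC0 F k M Ψ hΨ (fun _ => pG g) (fun _ => pG_monic hg (by omega))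
    (fun _ => (pG_deg).trans hgn) (fun _ l => pG_coef g l) (fun _ => t) (fun _ => ht)
    (fun _ _ l l' hl hl' h => ⟨rfl, htt l l' hl hl' h⟩) hcard
  simp only [Finset.univ_unique, Finset.sum_singleton] at h1
  refine h1.trans (Nat.mul_le_mul_left _ (Set.ncard_le_ncard ?_ (Set.toFinite _)))
  intro μ hμ
  have h2 := hμ ()
  rw [pG_spec] at h2
  exact h2

end Run7.h905.CB
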