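import Pool.Agent.Run7.h905.CB.Ci

/-!
# Simultaneous irreducibility: counting
-/

set_option autoImplicit false
set_option linter.all false
set_option maxHeartbeats 400000

open Polynomial

namespace Run7.h905.CB

open Pool.Agent.H470 Pool.Agent

section crt

/-- A number prime to `m` whose sum with `e` is prime to the odd number `n`. -/
theorem exists_b {n m : ℕ} (hn : Odd n) (hm : m ≠ 0) (e : ℕ) :
    ∃ b : ℕ, Nat.Coprime b m ∧ Nat.Coprime (b + e) n := by
  classical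
  have hn0 : n ≠ 0 := by
    rintro rfl
    exact absurd hn (by decide)
  set S := (n * m).primeFactors with hS
  set SB := S.filter fun ℓ => ℓ ∣ n ∧ ℓ ∣ 1 + e with hSB
  set SA := S.filter fun ℓ => ¬ (ℓ ∣ n ∧ ℓ ∣ 1 + e) with hSA
  have hco : Nat.Coprime (∏ ℓ ∈ SA, ℓ) (∏ ℓ ∈ SB, ℓ) := by
    refine Nat.Coprime.prod_left fun a ha => Nat.Coprime.prod_right fun b hb => ?_
    rw [hSA, Finset.mem_filter] at ha
    rw [hSB, Finset.mem_filter] at hb
    rw [Nat.coprime_primes (Nat.prime_of_mem_primeFactors ha.1)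
      (Nat.prime_of_mem_primeFactors hb.1)]
    rintro rfl
    exact ha.2 hb.2
  obtain ⟨b, hb1, hb2⟩ := Nat.chineseRemainder hco 1 2
  have hA : ∀ ℓ ∈ SA, b ≡ 1 [MOD ℓ] := fun ℓ h => hb1.of_dvd (Finset.dvd_prod_of_mem _ h)
  have hB : ∀ ℓ ∈ SB, b ≡ 2 [MOD ℓ] := fun ℓ h => hb2.of_dvd (Finset.dvd_prod_of_mem _ h)
  have hodd : ∀ ℓ, ℓ.Prime → ℓ ∣ n → ¬ ℓ ∣ 2 := by
    intro ℓ hℓ h1 h2
    have h3 := (Nat.prime_dvd_prime_iff_eq hℓ Nat.prime_two).1 h2
    rw [h3] at h1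
    exact (Nat.not_even_iff_odd.2 hn) (even_iff_two_dvd.2 h1)
  refine ⟨b, ?_, ?_⟩
  · refine Nat.Coprime.symm (Nat.coprime_of_dvd fun ℓ hℓ h1 h2 => ?_)
    have hmem : ℓ ∈ S := by
      rw [hS, Nat.mem_primeFactors]
      exact ⟨hℓ, h1.mul_left _, mul_ne_zero hn0 hm⟩
    by_cases h3 : ℓ ∣ n ∧ ℓ ∣ 1 + e
    · have h4 := hB ℓ (by rw [hSB, Finset.mem_filter]; exact ⟨hmem, h3⟩)
      exact hodd ℓ hℓ h3.1 ((Nat.ModEq.dvd_iff h4 dvd_rfl).1 h2)
    · have h4 := hA ℓ (by rw [hSA, Finset.mem_filter]; exact ⟨hmem, h3⟩)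
      exact hℓ.one_lt.ne' (Nat.dvd_one.1 ((Nat.ModEq.dvd_iff h4 dvd_rfl).1 h2))
  · refine Nat.Coprime.symm (Nat.coprime_of_dvd fun ℓ hℓ h1 h2 => ?_)
    have hmem : ℓ ∈ S := by
      rw [hS, Nat.mem_primeFactors]
      exact ⟨hℓ, h1.mul_right _, mul_ne_zero hn0 hm⟩
    by_cases h3 : ℓ ∣ n ∧ ℓ ∣ 1 + e
    · have h4 := (hB ℓ (by rw [hSB, Finset.mem_filter]; exact ⟨hmem, h3⟩)).add_right e
      have h5 := (Nat.ModEq.dvd_iff h4 dvd_rfl).1 h2
      have h6 : ℓ ∣ 1 := by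
        have : 2 + e = 1 + (1 + e) := by ring
        rw [this] at h5
        exact (Nat.dvd_add_left h3.2).1 h5
      exact hℓ.one_lt.ne' (Nat.dvd_one.1 h6)
    · have h4 := (hA ℓ (by rw [hSA, Finset.mem_filter]; exact ⟨hmem, h3⟩)).add_right e
      exact h3 ⟨h1, (Nat.ModEq.dvd_iff h4 dvd_rfl).1 h2⟩

end crt

section

variable {F : Type} [Field F]

/-- The monic multiple of `g(T) - μ`. -/
noncomputable def pM (g : F[X]) : F[X][X] := C (C g.leadingCoeff⁻¹) * pG g

theorem pM_monic {g : F[X]} (hd : 0 < g.natDegree) : (pM g).Monic := by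
  have hg : g.leadingCoeff ≠ 0 := by
    rw [leadingCoeff_ne_zero]
    rintro rfl
    rw [natDegree_zero] at hd
    exact lt_irrefl _ hd
  unfold pM pG
  rw [Monic, leadingCoeff_mul, leadingCoeff_C, leadingCoeff_sub_of_degree_lt,
    leadingCoeff_map_of_injective C_injective, ← C_mul, inv_mul_cancel₀ hg, C_1]
  refine lt_of_le_of_lt degree_C_le ?_
  rw [← natDegree_pos_iff_degree_pos, natDegree_map_eq_of_injective C_injective]
  exact hd

theorem pM_deg {g : F[X]} (hd : 0 < g.natDegree) : (pM g).natDegree = g.natDegree := by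
  have hg : g.leadingCoeff ≠ 0 := by
    rw [leadingCoeff_ne_zero]
    rintro rfl
    rw [natDegree_zero] at hd
    exact lt_irrefl _ hd
  unfold pM
  rw [natDegree_C_mul, pG_deg]
  rw [Ne, C_eq_zero]
  exact inv_ne_zero hg

theorem pM_coef (g : F[X]) (j : ℕ) : ((pM g).coeff j).natDegree ≤ 1 := by
  unfold pM
  rw [coeff_C_mul]
  refine natDegree_mul_le.trans ?_
  rw [natDegree_C, zero_add]
  exact pG_coef g j

theorem pM_spec (g : F[X]) (t0 : F) :
    (pM g).map (evalRingHom t0) = C g.leadingCoeff⁻¹ * (g - C t0) := by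
  unfold pM
  rw [Polynomial.map_mul, pG_spec, map_C, coe_evalRingHom, eval_C]

end

/-- **Simultaneous irreducibility.** For large finite fields and `n_i ∣ q - 1`, a positive proportion of
the `μ` makes all the polynomials `g_i - μ` irreducible, if the leading coefficients `v ^ (e_i)`, `v` a
generator, satisfy a condition, for example if they are all one. -/
theorem sim {ι : Type} [Fintype ι] (hι : Nonempty ι) (n : ι → ℕ) (hn : ∀ i, 0 < n i) : ∃ C0 : ℕ,
    ∀ (F : Type) [Field F] [Finite F] (v : Fˣ), (∀ x : Fˣ, x ∈ Subgroup.zpowers v) →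
    (∀ i, n i ∣ Nat.card F - 1) → ∀ g : ι → F[X], Function.Injective g →
    (∀ i, (g i).natDegree = n i) → ∀ e : ι → ℕ, (∀ i, (g i).leadingCoeff = (v : F) ^ e i) →
    ∀ b : ℕ, (∀ i, Nat.Coprime (b + e i) (n i)) → C0 < Nat.card F →
    Nat.card F ≤ 2 * (∑ i, n i) ^ (∑ i, n i) * {μ : F | ∀ i, Irreducible (g i - C μ)}.ncard := by
  classical
  obtain ⟨C0, hC0⟩ := cyc n hn hι 1
  refine ⟨C0, ?_⟩
  intro F _ _ v hv hnq g hg hgn e he b hb hcard
  let k := AlgebraicClosure F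
  have h1lt := Finite.one_lt_card (α := F)
  have hNF : ((Nat.card F - 1 : ℕ) : F) ≠ 0 := by
    rw [Nat.cast_sub h1lt.le]
    have h1 : ((Nat.card F : ℕ) : F) = 0 := by
      haveI := Fintype.ofFinite F
      rw [Nat.card_eq_fintype_card]
      exact FiniteField.cast_card_eq_zero F
    rw [h1, Nat.cast_one, zero_sub]
    exact neg_ne_zero.2 one_ne_zero
  have hvo : IsPrimitiveRoot (v : F) (Nat.card F - 1) := by
    rw [IsPrimitiveRoot.coe_units_iff, ← Nat.card_units, ← orderOf_eq_card_of_forall_mem_zpowers hv]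
    exact IsPrimitiveRoot.orderOf v
  obtain ⟨M, iF, iK, iX, iT, Ψ, t, hΨ, ht, htt⟩ := inf_fam k (N := Nat.card F - 1) (by omega) hNF
    (ω := (v : F) ^ b) (by rw [← pow_mul, mul_comm, pow_mul, hvo.pow_eq_one, one_pow]) hg hgn
    (a := fun i => (Nat.card F - 1) / n i) (fun i => Nat.mul_div_cancel' (hnq i)) hnq (by
      intro i
      rw [he, ← pow_mul, ← pow_mul, ← pow_add, ← add_mul, mul_comm, pow_mul]
      exact (hvo.pow (by omega) (Nat.div_mul_cancel (hnq i)).symm).pow_of_coprime _ (hb i))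
  have h1 := hC0 F k M Ψ hΨ (fun i => pM (g i)) (fun i => pM_monic (by rw [hgn]; exact hn i))
    (fun i => (pM_deg (by rw [hgn]; exact hn i)).trans (hgn i)) (fun i l => pM_coef (g i) l) t (by
      intro i
      have h2 := ht i
      unfold pM
      rw [Polynomial.map_mul, map_mul, h2, mul_zero]) htt hcard
  refine h1.trans (Nat.mul_le_mul_left _ (Set.ncard_le_ncard ?_ (Set.toFinite _)))
  intro μ hμ i
  have h2 := hμ i
  rw [pM_spec] at h2
  have hlc : (g i).leadingCoeff ≠ 0 := by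
    rw [he]
    exact pow_ne_zero _ v.ne_zero
  exact (irreducible_isUnit_mul (isUnit_C.2 (isUnit_iff_ne_zero.2 (inv_ne_zero hlc)))).1 h2

end Run7.h905.CB
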