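import Pool.Agent.H470.Core6

/-!
# Chebotarev's theorem over the rational function field, with the permutation of the roots

Adaptation of the files `Pool.Agent.H470.Core4`, `Core5`, `Core6`: the same proofs, the conclusion gives
the action of the Frobenius map on the roots of the specialised polynomial.
-/

set_option autoImplicit false
set_option linter.all false

open Polynomial

namespace Run7.h905.CB

open Pool.Agent.H470 Pool.Agent

section
variable {F k : Type*} [Field F] [Finite F] [Field k] [IsAlgClosed k] [Algebra F k]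

/-- **Specialisation.** -/
theorem specP {K N M : Type*} [Field K] [Algebra k[X] K] [IsFractionRing k[X] K] [Field N]
    [Algebra K N] [Algebra k[X] N] [IsScalarTower k[X] K N] [FiniteDimensional K N]
    [Algebra.IsSeparable K N] [Field M] [Algebra k[X] M] (emb : N →ₐ[k[X]] M) {Ψ : M →+* M}
    (hΨ : Semi F (k := k) Ψ) {n : ℕ} (g : F[X][X]) (hg : g.Monic) (hgn : g.natDegree = n)
    (y : Fin n → N) (hy : Function.Injective y)
    (hroot : ∀ j, aeval (y j) (g.map (mapRingHom (algebraMap F k))) = 0)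
    (σ : Equiv.Perm (Fin n)) (hσ : ∀ j, Ψ (emb (y j)) = emb (y (σ j)))
    (Ag Bg : F[X][X]) (Dg : F[X]) (hDg : Ag * g + Bg * derivative g = C Dg)
    (θ : N) (hθ : IsIntegral k[X] θ) (hgen : IntermediateField.adjoin K {θ} = ⊤)
    (hΨθ : Ψ (emb θ) = emb θ)
    (f0 : F[X][X]) (hf0 : f0.map (mapRingHom (algebraMap F k)) = minpoly k[X] θ)
    (A B : F[X][X]) (D : F[X]) (hD : A * f0 + B * derivative f0 = C D)
    (t0 θ0 : F) (hpt : evalEval t0 θ0 f0 = 0) (hDt : D.eval t0 ≠ 0) (hDgt : Dg.eval t0 ≠ 0) :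
    ∃ η : Fin n → k, (∀ j (P : k[X][X]), aeval (y j) P = 0 →
        eval₂ (evalRingHom (algebraMap F k t0)) (η j) P = 0) ∧
      (g.map (evalRingHom t0)).map (algebraMap F k) = ∏ j, (X - C (η j)) ∧
      (g.map (evalRingHom t0)).Separable ∧ ∀ j, η (σ j) = fr F k (η j) := by
  classical
  have hfaith : FaithfulSMul k[X] K :=
    (faithfulSMul_iff_algebraMap_injective _ _).2 (IsFractionRing.injective k[X] K)
  have hinjN : Function.Injective (algebraMap k[X] N) := by
    rw [IsScalarTower.algebraMap_eq k[X] K N]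
    exact (algebraMap K N).injective.comp (IsFractionRing.injective k[X] K)
  have hfaithN : FaithfulSMul k[X] N := (faithfulSMul_iff_algebraMap_injective _ _).2 hinjN
  set f := minpoly k[X] θ with hf
  set gk := g.map (mapRingHom (algebraMap F k)) with hgk
  have hgkm : gk.Monic := hg.map _
  have hyi : ∀ j, IsIntegral k[X] (y j) := fun j => ⟨gk, hgkm, hroot j⟩
  let B' := integralClosure k[X] N
  let yB : Fin n → B' := fun j => ⟨y j, hyi j⟩
  let θB : B' := ⟨θ, hθ⟩
  let i : k[X][X] →+* B' := (aeval θB : k[X][X] →ₐ[k[X]] B').toRingHom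
  have hiC : ∀ p : k[X], i (C p) = algebraMap k[X] B' p := fun p => by
    show aeval θB (C p) = _
    rw [aeval_C]
  have hiX : i X = θB := aeval_X _
  have hi : i.IsIntegral := by
    have h1 : (i.comp C).IsIntegral := by
      have : i.comp C = algebraMap k[X] B' := RingHom.ext hiC
      rw [this]
      exact Algebra.IsIntegral.isIntegral
    exact RingHom.IsIntegral.tower_top _ _ h1
  have hcoe : ∀ p : k[X][X], ((i p : B') : N) = aeval θ p := by
    intro p
    show ((aeval θB p : B') : N) = aeval θ p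
    have := aeval_algebraMap_apply N θB p
    exact this.symm
  set t0k := algebraMap F k t0
  set θ0k := algebraMap F k θ0
  have hev_f : ev2 t0k θ0k f = 0 := by
    rw [← hf0, ev2_map, ev2_apply, hpt, map_zero]
  obtain ⟨ev, hev⟩ := exists_ext' i hi (ev2 t0k θ0k) (by
    intro p hp
    rw [RingHom.mem_ker] at hp ⊢
    have h1 : aeval θ p = 0 := by rw [← hcoe, hp]; rfl
    obtain ⟨r, hr⟩ := minpoly.isIntegrallyClosed_dvd hθ h1
    rw [hr, map_mul, hev_f, zero_mul])
  have hevC : ∀ p : k[X], ev (algebraMap k[X] B' p) = p.eval t0k := by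
    intro p
    rw [← hiC, hev, ev2_C]
  -- the roots of the specialisation
  have hprodM : gk.map (algebraMap k[X] N) = ∏ j, (X - C (y j)) := by
    apply eq_prod_roots _ (hgkm.map _) _ y hy
    · intro j
      rw [eval_map]
      exact hroot j
    · rw [hgkm.natDegree_map, hgk, hg.natDegree_map, hgn]
  have hprodB : gk.map (algebraMap k[X] B') = ∏ j, (X - C (yB j)) := by
    apply Polynomial.map_injective (algebraMap B' N) Subtype.val_injective
    rw [Polynomial.map_map, ← IsScalarTower.algebraMap_eq, hprodM, Polynomial.map_prod]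
    refine Finset.prod_congr rfl fun j _ => ?_
    rw [Polynomial.map_sub, map_X, map_C]
    rfl
  have hprod : (g.map (evalRingHom t0)).map (algebraMap F k) = ∏ j, (X - C (ev (yB j))) := by
    have h1 := congrArg (Polynomial.map ev) hprodB
    rw [Polynomial.map_map, Polynomial.map_prod] at h1
    have h2 : ev.comp (algebraMap k[X] B') = evalRingHom t0k := RingHom.ext hevC
    rw [h2, hgk, Polynomial.map_map] at h1
    rw [Polynomial.map_map]
    have h3 : (evalRingHom t0k).comp (mapRingHom (algebraMap F k)) =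
        (algebraMap F k).comp (evalRingHom t0) := by
      apply Polynomial.ringHom_ext
      · intro c; simp
      · simp [t0k]
    rw [← h3, h1]
    refine Finset.prod_congr rfl fun j _ => ?_
    rw [Polynomial.map_sub, map_X, map_C]
  refine ⟨fun j => ev (yB j), ?_, hprod, separable_of_bezout _ _ _ _ hDg _ hDgt, ?_⟩
  · intro j P hP
    have hP' : aeval (yB j) P = 0 := by
      apply Subtype.ext
      have h1 := aeval_algebraMap_apply N (yB j) P
      exact h1.symm.trans hP
    have h2 := congrArg ev hP'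
    rw [map_zero, aeval_def, hom_eval₂] at h2
    have h3 : ev.comp (algebraMap k[X] B') = evalRingHom t0k := RingHom.ext hevC
    rw [h3] at h2
    exact h2
  intro j
  obtain ⟨G, hG⟩ := deriv_mul_mem (A := k[X]) (K := K) θ hθ hgen (y j) (hyi j)
  have hfr : f.map (mapRingHom (fr F k)) = f := by
    rw [← hf0, Polynomial.map_map]
    congr 1
    apply Polynomial.ringHom_ext
    · intro c
      simp [fr_algebraMap]
    · simp
  have hd' : (derivative f).map (mapRingHom (fr F k)) = derivative f := by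
    rw [← derivative_map, hfr]
  have h1 : i (derivative f) * yB j = i G := by
    apply Subtype.ext
    rw [MulMemClass.coe_mul, hcoe, hcoe]
    exact hG
  have h2 : i (derivative f) * yB (σ j) = i (G.map (mapRingHom (fr F k))) := by
    apply Subtype.ext
    rw [MulMemClass.coe_mul, hcoe, hcoe]
    apply emb.toRingHom.injective
    show emb _ = emb _
    have e1 : ∀ P : k[X][X], emb (aeval θ P) = aeval (emb θ) P := fun P =>
      (aeval_algHom_apply emb θ P).symm
    have h3 := congrArg (fun z => Ψ (emb z)) hG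
    simp only [map_mul] at h3
    rw [e1, e1, hΨ.aeval, hΨ.aeval, hΨθ, hd', hσ] at h3
    rw [map_mul, e1, e1]
    exact h3
  have h4 := congrArg ev h1
  have h5 := congrArg ev h2
  rw [map_mul, hev, hev] at h4 h5
  rw [ev2_fr] at h5
  have h6 : fr F k (ev2 t0k θ0k (derivative f)) = ev2 t0k θ0k (derivative f) := by
    rw [← ev2_fr, hd']
  have h7 : ev2 t0k θ0k (derivative f) ≠ 0 := by
    have h8 : derivative f = (derivative f0).map (mapRingHom (algebraMap F k)) := by
      rw [← hf0, derivative_map]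
    rw [h8, ev2_map]
    intro h9
    rw [map_eq_zero_iff _ (algebraMap F k).injective] at h9
    have h10 := congrArg (ev2 t0 θ0) hD
    rw [map_add, map_mul, map_mul, h9, ev2_apply t0 θ0 f0, hpt, mul_zero, mul_zero, add_zero,
      ev2_C] at h10
    exact hDt h10.symm
  apply mul_left_cancel₀ h7
  show _ * ev (yB (σ j)) = _ * fr F k (ev (yB j))
  rw [h5, ← h4, map_mul, h6]

/-- The curve attached to a semilinear map. -/
theorem curveP {M : Type*} [Field M] [Algebra (RatFunc k) M] [Algebra k[X] M]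
    [IsScalarTower k[X] (RatFunc k) M] {Ψ : M →+* M}
    (hΨ : Semi F (k := k) Ψ) {n : ℕ} (hn : 0 < n) (g : F[X][X]) (hg : g.Monic) (hgn : g.natDegree = n)
    (d0 : ℕ) (hd0 : ∀ i, (g.coeff i).natDegree ≤ d0)
    (y : Fin n → M) (hy : Function.Injective y)
    (hroot : ∀ j, aeval (y j) (g.map (mapRingHom (algebraMap F k))) = 0)
    (hq : (n ^ n) ^ 2 < Nat.card F) :
    ∃ (f0 A B Ag Bg : F[X][X]) (D Dg : F[X]), f0.Monic ∧ 0 < f0.natDegree ∧ f0.natDegree ≤ n ^ n ∧
      (∀ i, (f0.coeff i).natDegree ≤ d0 * n ^ n) ∧ A * f0 + B * derivative f0 = C D ∧ D ≠ 0 ∧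
      D.natDegree ≤ 2 * n ^ n * (d0 * n ^ n) ∧ Dg ≠ 0 ∧ Dg.natDegree ≤ 2 * n * d0 ∧
      Irreducible (f0.map (mapRingHom (algebraMap F k))) ∧
      ∀ t0 θ0 : F, evalEval t0 θ0 f0 = 0 → D.eval t0 ≠ 0 → Dg.eval t0 ≠ 0 →
        ∃ η : Fin n → k, (∀ j (P : k[X][X]), aeval (y j) P = 0 →
            eval₂ (evalRingHom (algebraMap F k t0)) (η j) P = 0) ∧
          (g.map (evalRingHom t0)).map (algebraMap F k) = ∏ j, (X - C (η j)) ∧
          (g.map (evalRingHom t0)).Separable ∧ ∀ j i, Ψ (y j) = y i → η i = fr F k (η j) := by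
  classical
  have hinjM : Function.Injective (algebraMap k[X] M) := by
    rw [IsScalarTower.algebraMap_eq k[X] (RatFunc k) M]
    exact (algebraMap (RatFunc k) M).injective.comp (IsFractionRing.injective k[X] (RatFunc k))
  have hfaithM : FaithfulSMul k[X] M := (faithfulSMul_iff_algebraMap_injective _ _).2 hinjM
  set gk := g.map (mapRingHom (algebraMap F k)) with hgk
  have hgkm : gk.Monic := hg.map _
  have hgkn : gk.natDegree = n := by rw [hgk, hg.natDegree_map, hgn]
  set gM := gk.map (algebraMap k[X] M) with hgM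
  have hgMm : gM.Monic := hgkm.map _
  have hgMn : gM.natDegree = n := by rw [hgM, hgkm.natDegree_map, hgkn]
  have hrootM : ∀ j, gM.eval (y j) = 0 := by
    intro j
    rw [hgM, eval_map]
    exact hroot j
  have hprodM := eq_prod_roots gM hgMm hgMn y hy hrootM
  have hΨg : gM.map Ψ = gM := by
    rw [hgM, hgk, Polynomial.map_map, Polynomial.map_map, Polynomial.map_map]
    congr 1
    apply Polynomial.ringHom_ext
    · intro c
      simp only [RingHom.comp_apply, coe_mapRingHom, map_C]
      rw [hΨ.C, fr_algebraMap]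
    · simp only [RingHom.comp_apply, coe_mapRingHom, map_X]
      exact hΨ.X
  obtain ⟨σ, hσ⟩ := exists_perm gM hgMm hgMn y hy hrootM Ψ hΨg
  set gK := gk.map (algebraMap k[X] (RatFunc k)) with hgK
  have hgKm : gK.Monic := hgkm.map _
  have hgKn : gK.natDegree = n := by rw [hgK, hgkm.natDegree_map, hgkn]
  have hgKM : gK.map (algebraMap (RatFunc k) M) = gM := by
    rw [hgK, hgM, Polynomial.map_map, ← IsScalarTower.algebraMap_eq]
  have hgKsep : gK.Separable := by
    rw [← separable_map (algebraMap (RatFunc k) M), hgKM, hprodM]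
    exact separable_prod_X_sub_C_iff.2 hy
  have hyi : ∀ j, IsIntegral k[X] (y j) := fun j => ⟨gk, hgkm, hroot j⟩
  have hyK : ∀ j, IsIntegral (RatFunc k) (y j) := fun j => (hyi j).tower_top
  have hrootK : ∀ j, aeval (y j) gK = 0 := by
    intro j
    rw [hgK, aeval_map_algebraMap]
    exact hroot j
  set N := IntermediateField.adjoin (RatFunc k) (Set.range y) with hN
  haveI : FiniteDimensional (RatFunc k) N := by
    apply IntermediateField.finiteDimensional_adjoin
    rintro _ ⟨j, rfl⟩
    exact hyK j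
  haveI : Algebra.IsSeparable (RatFunc k) N := by
    rw [hN, IntermediateField.isSeparable_adjoin_iff_isSeparable]
    rintro _ ⟨j, rfl⟩
    exact hgKsep.of_dvd (minpoly.dvd _ _ (hrootK j))
  let yN : Fin n → N := fun j => ⟨y j, IntermediateField.subset_adjoin _ _ ⟨j, rfl⟩⟩
  have hyN : Function.Injective yN := fun a b h => hy (congrArg Subtype.val h)
  have hgenN : IntermediateField.adjoin (RatFunc k) (Set.range yN) = ⊤ := by
    rw [eq_top_iff]
    rintro ⟨x, hx⟩ -
    refine IntermediateField.adjoin_induction (RatFunc k)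
      (p := fun x hx => (⟨x, hx⟩ : N) ∈ IntermediateField.adjoin (RatFunc k) (Set.range yN))
      ?_ ?_ ?_ ?_ ?_ hx
    · rintro _ ⟨j, rfl⟩
      exact IntermediateField.subset_adjoin _ _ ⟨j, rfl⟩
    · intro x
      exact IntermediateField.algebraMap_mem _ x
    · intro x y hx hy h1 h2
      exact add_mem h1 h2
    · intro x hx h1
      exact inv_mem h1
    · intro x y hx hy h1 h2
      exact mul_mem h1 h2
  have hrootN : ∀ j, aeval (yN j) gK = 0 := by
    intro j
    apply (algebraMap N M).injective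
    rw [map_zero, ← aeval_algebraMap_apply]
    exact hrootK j
  obtain ⟨⟨l, hl, hgen⟩, hfr⟩ := exists_theta (F := F) (k := k) gK hgKm.ne_zero hgKn.le yN hrootN hgenN σ hq
  set θ : N := ∑ j, algebraMap (RatFunc k) N (algebraMap k (RatFunc k) (l j)) * yN j with hθ
  have hcst : ∀ c : k, algebraMap (RatFunc k) N (algebraMap k (RatFunc k) c) =
      algebraMap k[X] N (C c) := by
    intro c
    rw [IsScalarTower.algebraMap_apply k[X] (RatFunc k) N, IsScalarTower.algebraMap_apply k k[X] (RatFunc k)]
    rfl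
  let emb : N →ₐ[k[X]] M := (N.val).restrictScalars k[X]
  have hemb : ∀ x : N, emb x = (x : M) := fun x => rfl
  have hinjN : Function.Injective (algebraMap k[X] N) := by
    rw [IsScalarTower.algebraMap_eq k[X] (RatFunc k) N]
    exact (algebraMap (RatFunc k) N).injective.comp (IsFractionRing.injective k[X] (RatFunc k))
  have hfaithN : FaithfulSMul k[X] N := (faithfulSMul_iff_algebraMap_injective _ _).2 hinjN
  have hyiN : ∀ j, IsIntegral k[X] (yN j) := by
    intro j
    refine ⟨gk, hgkm, ?_⟩
    apply (algebraMap N M).injective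
    rw [map_zero]
    have := hroot j
    rw [← this, aeval_def, hom_eval₂]
    rfl
  have hθi : IsIntegral k[X] θ := by
    rw [hθ]
    refine IsIntegral.sum _ fun j _ => ?_
    rw [hcst]
    exact isIntegral_algebraMap.mul (hyiN j)
  have hθM : (θ : M) = ∑ j, algebraMap k[X] M (C (l j)) * y j := by
    rw [hθ, ← hemb, map_sum]
    refine Finset.sum_congr rfl fun j _ => ?_
    rw [map_mul, hcst, emb.commutes]
    rfl
  have hΨθ : Ψ (θ : M) = θ := by
    rw [hθM, map_sum]
    rw [← Equiv.sum_comp σ (fun j => algebraMap k[X] M (C (l j)) * y j)]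
    refine Finset.sum_congr rfl fun j _ => ?_
    rw [map_mul, hΨ.C, hσ, hl, fr_apply]
  have hmin : minpoly k[X] (θ : M) = minpoly k[X] θ := by
    have := minpoly.algHom_eq emb (fun a b h => Subtype.ext h) θ
    exact this
  have hθiM : IsIntegral k[X] (θ : M) := hθi.map emb
  have hdesc := minpoly_descent hΨ (θ : M) hθiM hΨθ
  rw [hmin] at hdesc
  set f := minpoly k[X] θ with hf
  have hfm : f.Monic := minpoly.monic hθi
  obtain ⟨f0, hf0⟩ := descent2 F k f hdesc
  have hinjF : Function.Injective (mapRingHom (algebraMap F k)) :=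
    Polynomial.map_injective _ (algebraMap F k).injective
  have hf0m : f0.Monic := monic_of_injective hinjF (by rw [hf0]; exact hfm)
  have hf0n : f0.natDegree = f.natDegree := by rw [← hf0, hf0m.natDegree_map]
  have hfK : f.map (algebraMap k[X] (RatFunc k)) = minpoly (RatFunc k) θ :=
    (minpoly.isIntegrallyClosed_eq_field_fractions' (RatFunc k) hθi).symm
  have hfn : f.natDegree ≤ n ^ n := by
    have h1 := (Field.primitive_element_iff_minpoly_natDegree_eq (RatFunc k) θ).1 hgen
    rw [← hfK, hfm.natDegree_map] at h1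
    rw [h1]
    exact hfr
  have hfpos : 0 < f.natDegree := minpoly.natDegree_pos hθi
  have hinf : IntInf (k := k) (algebraMap (RatFunc k) N (RatFunc.X ^ d0)⁻¹ * θ) := by
    rw [hθ, Finset.mul_sum]
    refine intInf_sum _ _ fun j _ => ?_
    have h1 : algebraMap (RatFunc k) N (RatFunc.X ^ d0)⁻¹ *
        (algebraMap (RatFunc k) N (algebraMap k (RatFunc k) (l j)) * yN j) =
        algebraMap (RatFunc k) N (algebraMap k (RatFunc k) (l j)) *
          (algebraMap (RatFunc k) N (RatFunc.X ^ d0)⁻¹ * yN j) := by ring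
    rw [h1]
    refine IntInf.mul ?_ ?_
    · apply intInf_of_mem
      have h2 : algebraMap k (RatFunc k) (l j) = algebraMap k[X] (RatFunc k) (C (l j)) := by
        rw [IsScalarTower.algebraMap_apply k k[X] (RatFunc k)]
        rfl
      rw [h2]
      exact C_mem_Oinf _
    · apply intInf_root gk hgkm d0
      · intro i
        rw [hgk, coeff_map, coe_mapRingHom]
        exact natDegree_map_le.trans (hd0 i)
      · exact hrootN j
  have hfc := minpoly_coeff_natDegree_le θ hθi d0 hinf
  have hf0c : ∀ i, (f0.coeff i).natDegree ≤ d0 * n ^ n := by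
    intro i
    have h1 : (f0.coeff i).natDegree = (f.coeff i).natDegree := by
      rw [← hf0, coeff_map, coe_mapRingHom, natDegree_map_eq_of_injective (algebraMap F k).injective]
    rw [h1]
    exact (hfc i).trans (Nat.mul_le_mul_left _ hfn)
  set ι : F[X] →+* RatFunc k := (algebraMap k[X] (RatFunc k)).comp (mapRingHom (algebraMap F k)) with hι
  have hιi : Function.Injective ι :=
    (IsFractionRing.injective k[X] (RatFunc k)).comp hinjF
  have hf0sep : (f0.map ι).Separable := by
    rw [hι, ← Polynomial.map_map, hf0, hfK]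
    exact Algebra.IsSeparable.isSeparable _ _
  obtain ⟨A, B, D, hD, hD0, hDd⟩ := exists_bezout ι hιi f0 hf0m (by rw [hf0n]; exact hfpos) _ hf0c hf0sep
  have hgsep : (g.map ι).Separable := by
    rw [hι, ← Polynomial.map_map]
    exact hgKsep
  obtain ⟨Ag, Bg, Dg, hDg, hDg0, hDgd⟩ := exists_bezout ι hιi g hg (by rw [hgn]; exact hn) _ hd0 hgsep
  refine ⟨f0, A, B, Ag, Bg, D, Dg, hf0m, by rw [hf0n]; exact hfpos, by rw [hf0n]; exact hfn, hf0c, hD, hD0,
    ?_, hDg0, ?_, ?_, ?_⟩
  · refine hDd.trans ?_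
    rw [hf0n]
    exact Nat.mul_le_mul_right _ (Nat.mul_le_mul_left _ hfn)
  · rw [hgn] at hDgd
    exact hDgd
  · rw [hf0]
    exact minpoly.irreducible hθi
  · intro t0 θ0 hpt hDt hDgt
    obtain ⟨η, h0, h1, h2, h3⟩ := specP (K := RatFunc k) emb hΨ g hg hgn yN hyN
      (by
        intro j
        apply (algebraMap N M).injective
        rw [map_zero, ← hroot j, aeval_def, hom_eval₂]
        rfl)
      σ (fun j => hσ j) Ag Bg Dg hDg θ hθi hgen hΨθ f0 hf0 A B D hD t0 θ0 hpt hDt hDgt
    refine ⟨η, ?_, h1, h2, ?_⟩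
    · intro j P hP
      apply h0 j P
      apply (algebraMap N M).injective
      rw [map_zero, ← hP, aeval_def, hom_eval₂]
      rfl
    intro j i hji
    rw [hσ] at hji
    rw [← hy hji]
    exact h3 j

end

/-- The points with a good first coordinate: there are roots with the given Frobenius action. -/
def GoodPt {F k M : Type} [Field F] [Finite F] [Field k] [Algebra F k] [Field M] [Algebra k[X] M]
    (Ψ : M →+* M) (g : F[X][X]) {n : ℕ} (y : Fin n → M) (t0 : F) : Prop :=
  ∃ η : Fin n → k, (∀ j (P : k[X][X]), aeval (y j) P = 0 →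
      eval₂ (evalRingHom (algebraMap F k t0)) (η j) P = 0) ∧
    (g.map (evalRingHom t0)).map (algebraMap F k) = ∏ j, (X - C (η j)) ∧
    (g.map (evalRingHom t0)).Separable ∧ ∀ j i, Ψ (y j) = y i → η i = fr F k (η j)

/-- **Chebotarev's theorem over the rational function field**: a positive proportion of the points of
degree one has the given Frobenius action. -/
theorem lgC (n d0 : ℕ) (hn : 0 < n) : ∃ C0 : ℕ, ∀ (F : Type) [Field F] [Finite F] (k : Type) [Field k]
    [IsAlgClosed k] [Algebra F k] [Algebra.IsAlgebraic F k] (M : Type) [Field M]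
    [Algebra (RatFunc k) M] [Algebra k[X] M] [IsScalarTower k[X] (RatFunc k) M] (Ψ : M →+* M),
    Semi F (k := k) Ψ → ∀ (g : F[X][X]), g.Monic → g.natDegree = n →
    (∀ i, (g.coeff i).natDegree ≤ d0) → ∀ (y : Fin n → M), Function.Injective y →
    (∀ j, aeval (y j) (g.map (mapRingHom (algebraMap F k))) = 0) →
    C0 < Nat.card F → Nat.card F ≤ 2 * n ^ n * {t0 : F | GoodPt (k := k) Ψ g y t0}.ncard := by
  classical
  set d := d0 * n ^ n with hd
  set δ := 2 * n ^ n * (d0 * n ^ n) with hδ
  set W := R410.PW.WC (n ^ n) d δ with hW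
  set E := (δ + 2 * n * d0) * n ^ n with hE
  refine ⟨max ((n ^ n) ^ 2) (4 * (W + E + 1) ^ 2), ?_⟩
  intro F _ _ k _ _ _ _ M _ _ _ _ Ψ hΨ g hg hgn hgd y hy hroot hC
  have hq1 : (n ^ n) ^ 2 < Nat.card F := lt_of_le_of_lt (le_max_left _ _) hC
  have hq2 : 4 * (W + E + 1) ^ 2 < Nat.card F := lt_of_le_of_lt (le_max_right _ _) hC
  obtain ⟨f0, A, B, Ag, Bg, D, Dg, hf0m, hf0pos, hf0n, hf0c, hD, hD0, hDd, hDg0, hDgd, hirr, hspec⟩ :=
    curveP hΨ hn g hg hgn d0 hgd y hy hroot hq1
  have hweil := R410.PW.weil (F := F) k hf0m hf0pos hD hD0 hDd hf0c hirr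
  set Bad : Finset F := D.roots.toFinset ∪ Dg.roots.toFinset with hBad
  have hBadc : Bad.card ≤ δ + 2 * n * d0 := by
    refine (Finset.card_union_le _ _).trans (add_le_add ?_ ?_)
    · exact (Multiset.toFinset_card_le _).trans ((card_roots' _).trans hDd)
    · exact (Multiset.toFinset_card_le _).trans ((card_roots' _).trans hDgd)
  have hTf : {t0 : F | GoodPt (k := k) Ψ g y t0}.Finite := Set.toFinite _
  set T : Finset F := hTf.toFinset with hT
  have hTc : {t0 : F | GoodPt (k := k) Ψ g y t0}.ncard = T.card := by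
    rw [hT, Set.ncard_eq_toFinset_card _ hTf]
  have hall : {z : F × F | evalEval z.1 z.2 f0 = 0} ⊆
      {z : F × F | evalEval z.1 z.2 f0 = 0 ∧ z.1 ∈ Bad ∪ T} := by
    rintro ⟨t, θ⟩ hz
    refine ⟨hz, ?_⟩
    rw [Finset.mem_union]
    by_contra hnb
    push Not at hnb
    obtain ⟨h0, h3⟩ := hnb
    simp only [hBad, Finset.mem_union, Multiset.mem_toFinset, not_or] at h0
    obtain ⟨h1, h2⟩ := h0
    rw [mem_roots hD0, IsRoot.def] at h1
    rw [mem_roots hDg0, IsRoot.def] at h2
    apply h3
    rw [hT, Set.Finite.mem_toFinset]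
    exact hspec t θ hz h1 h2
  have hle : {z : F × F | evalEval z.1 z.2 f0 = 0}.ncard ≤ E + T.card * n ^ n := by
    refine (Set.ncard_le_ncard hall (Set.toFinite _)).trans
      ((card_points_le f0 hf0m (Bad ∪ T)).trans ?_)
    refine (Nat.mul_le_mul ((Finset.card_union_le _ _).trans (Nat.add_le_add_right hBadc _))
      hf0n).trans ?_
    rw [add_mul]
  have hWle : R410.PW.WC f0.natDegree d δ ≤ W := WC_mono hf0n
  have h1 := (abs_le.1 hweil).1
  set q : ℝ := (Nat.card F : ℝ) with hq
  have h2 : 4 * ((W : ℝ) + E + 1) ^ 2 < q := by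
    rw [hq]
    exact_mod_cast hq2
  have h3 : 2 * ((W : ℝ) + E + 1) < √q := by
    apply Real.lt_sqrt_of_sq_lt
    nlinarith
  have h4 : √q * √q = q := Real.mul_self_sqrt (by positivity)
  have h5 : ((R410.PW.WC f0.natDegree d δ : ℕ) : ℝ) ≤ (W : ℝ) := by exact_mod_cast hWle
  have h6 : (({z : F × F | evalEval z.1 z.2 f0 = 0}.ncard : ℕ) : ℝ) ≤ (E : ℝ) + T.card * n ^ n := by
    exact_mod_cast hle
  have h7 : 0 ≤ √q := Real.sqrt_nonneg q
  have h8 : (0 : ℝ) ≤ (W : ℝ) := by positivity
  have h9 : (0 : ℝ) ≤ (E : ℝ) := by positivity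
  have h10 : (1 : ℝ) ≤ √q := by linarith
  have h11 : q ≤ 2 * (T.card * n ^ n) := by
    nlinarith [mul_le_mul_of_nonneg_right h5 h7,
      mul_le_mul_of_nonneg_right h3.le h7, mul_le_mul_of_nonneg_left h10 h9]
  rw [hTc]
  have h12 : ((Nat.card F : ℕ) : ℝ) ≤ ((2 * n ^ n * T.card : ℕ) : ℝ) := by
    push_cast
    rw [← hq]
    linarith
  exact_mod_cast h12

end Run7.h905.CB
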