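import Pool.Agent.Run7.h905.CB.Ca

/-!
# Simultaneous irreducible specialisations from cycles of a Frobenius map
-/

set_option autoImplicit false
set_option linter.all false
set_option maxHeartbeats 400000

open Polynomial

namespace Run7.h905.CB

open Pool.Agent.H470 Pool.Agent

section coef

variable {F : Type} [Field F]

theorem coef_mul {P Q : F[X][X]} {a b : ℕ} (hP : ∀ j, (P.coeff j).natDegree ≤ a)
    (hQ : ∀ j, (Q.coeff j).natDegree ≤ b) (j : ℕ) : ((P * Q).coeff j).natDegree ≤ a + b := by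
  rw [coeff_mul]
  refine natDegree_sum_le_of_forall_le _ _ fun x _ => ?_
  exact natDegree_mul_le.trans (add_le_add (hP _) (hQ _))

theorem coef_prod {ι : Type} [DecidableEq ι] {P : ι → F[X][X]} {a : ℕ}
    (hP : ∀ i j, ((P i).coeff j).natDegree ≤ a) (s : Finset ι) :
    ∀ j, ((∏ i ∈ s, P i).coeff j).natDegree ≤ s.card * a := by
  induction s using Finset.induction_on with
  | empty =>
    intro j
    rw [Finset.prod_empty, coeff_one]
    split_ifs
    · simp
    · simp
  | insert i s hi ih =>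
    intro j
    rw [Finset.prod_insert hi, Finset.card_insert_of_notMem hi]
    refine (coef_mul (hP i) ih j).trans ?_
    rw [add_mul, one_mul, add_comm]

end coef

section semi

variable {F k M : Type} [Field F] [Finite F] [Field k] [Algebra F k] [Field M] [Algebra k[X] M]
  {Ψ : M →+* M}

theorem fix_map (P : F[X][X]) : (P.map (mapRingHom (algebraMap F k))).map (mapRingHom (fr F k)) =
    P.map (mapRingHom (algebraMap F k)) := by
  rw [Polynomial.map_map]
  congr 1
  apply Polynomial.ringHom_ext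
  · intro c
    simp only [RingHom.comp_apply, coe_mapRingHom, map_C]
    rw [fr_algebraMap]
  · simp only [RingHom.comp_apply, coe_mapRingHom, map_X]

theorem root_step (hΨ : Semi F (k := k) Ψ) (P : F[X][X]) {y : M}
    (hy : aeval y (P.map (mapRingHom (algebraMap F k))) = 0) :
    aeval (Ψ y) (P.map (mapRingHom (algebraMap F k))) = 0 := by
  have h := congrArg Ψ hy
  rw [hΨ.aeval, fix_map, map_zero] at h
  exact h

theorem root_iter (hΨ : Semi F (k := k) Ψ) (P : F[X][X]) {y : M}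
    (hy : aeval y (P.map (mapRingHom (algebraMap F k))) = 0) (l : ℕ) :
    aeval (Ψ^[l] y) (P.map (mapRingHom (algebraMap F k))) = 0 := by
  induction l with
  | zero => exact hy
  | succ l ih =>
    rw [Function.iterate_succ_apply']
    exact root_step hΨ P ih

/-- A cycle of roots of full length closes. -/
theorem per_of (hΨ : Semi F (k := k) Ψ) (P : F[X][X]) (hP : P.Monic) {m : ℕ}
    (hm : P.natDegree = m) {y : M} (hy : aeval y (P.map (mapRingHom (algebraMap F k))) = 0)
    (hinj : ∀ l l', l < m → l' < m → Ψ^[l] y = Ψ^[l'] y → l = l') (hm0 : 0 < m) :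
    Ψ^[m] y = y := by
  set PM := (P.map (mapRingHom (algebraMap F k))).map (algebraMap k[X] M) with hPM
  have hPMm : PM.Monic := (hP.map _).map _
  have hPMn : PM.natDegree = m := by
    rw [hPM, (hP.map _).natDegree_map, hP.natDegree_map, hm]
  have hroot : ∀ l, PM.eval (Ψ^[l] y) = 0 := by
    intro l
    rw [hPM, eval_map]
    exact root_iter hΨ P hy l
  have hprod := eq_prod_roots PM hPMm hPMn (fun l : Fin m => Ψ^[(l : ℕ)] y)
    (fun a b h => Fin.ext (hinj a b a.2 b.2 h)) fun l => hroot l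
  have h1 := hroot m
  rw [hprod, eval_prod, Finset.prod_eq_zero_iff] at h1
  obtain ⟨l, -, hl⟩ := h1
  rw [eval_sub, eval_X, eval_C, sub_eq_zero] at hl
  by_cases hl0 : (l : ℕ) = 0
  · rw [hl, hl0]
    rfl
  · exfalso
    obtain ⟨j, hj⟩ : ∃ j, m = (l : ℕ) + j := ⟨m - l, by omega⟩
    have h2 : Ψ^[(l : ℕ)] (Ψ^[j] y) = Ψ^[(l : ℕ)] y := by
      rw [← Function.iterate_add_apply, ← hj, hl]
    have h3 : Ψ^[j] y = Ψ^[0] y := (Function.Injective.iterate Ψ.injective (l : ℕ)) h2
    have h4 := hinj j 0 (by omega) hm0 h3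
    omega

end semi

/-- **Irreducible specialisations.** -/
theorem cyc {ι : Type} [Fintype ι] (m : ι → ℕ) (hm : ∀ i, 0 < m i) (hι : Nonempty ι) (d0 : ℕ) :
    ∃ C0 : ℕ, ∀ (F : Type) [Field F] [Finite F] (k : Type) [Field k] [IsAlgClosed k] [Algebra F k]
    [Algebra.IsAlgebraic F k] (M : Type) [Field M] [Algebra (RatFunc k) M] [Algebra k[X] M]
    [IsScalarTower k[X] (RatFunc k) M] (Ψ : M →+* M), Semi F (k := k) Ψ →
    ∀ (P : ι → F[X][X]), (∀ i, (P i).Monic) → (∀ i, (P i).natDegree = m i) →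
    (∀ i j, ((P i).coeff j).natDegree ≤ d0) → ∀ y : ι → M,
    (∀ i, aeval (y i) ((P i).map (mapRingHom (algebraMap F k))) = 0) →
    (∀ i j l l', l < m i → l' < m j → Ψ^[l] (y i) = Ψ^[l'] (y j) → i = j ∧ l = l') →
    C0 < Nat.card F → Nat.card F ≤ 2 * (∑ i, m i) ^ (∑ i, m i) *
      {t0 : F | ∀ i, Irreducible ((P i).map (evalRingHom t0))}.ncard := by
  classical
  set n := ∑ i, m i with hn
  have hn0 : 0 < n := by
    obtain ⟨i⟩ := hι
    exact lt_of_lt_of_le (hm i) (Finset.single_le_sum (f := m) (fun _ _ => Nat.zero_le _)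
      (Finset.mem_univ i))
  obtain ⟨C0, hC0⟩ := lgC n (Fintype.card ι * d0) hn0
  refine ⟨C0, ?_⟩
  intro F _ _ k _ _ _ _ M _ _ _ _ Ψ hΨ P hPm hPn hPc y hroot hinj hcard
  have hcardJ : Fintype.card (Σ i, Fin (m i)) = n := by
    rw [Fintype.card_sigma]
    simp [hn]
  let e : Fin n ≃ (Σ i, Fin (m i)) := (Fintype.equivFinOfCardEq hcardJ).symm
  let Y : Fin n → M := fun a => Ψ^[((e a).2 : ℕ)] (y (e a).1)
  have hY : Function.Injective Y := by
    intro a b hab
    obtain ⟨h1, h2⟩ := hinj (e a).1 (e b).1 _ _ (e a).2.2 (e b).2.2 hab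
    apply e.injective
    refine Sigma.ext h1 ?_
    refine (Fin.heq_ext_iff (congrArg m h1)).2 h2
  set G : F[X][X] := ∏ i, P i with hG
  have hGm : G.Monic := monic_prod_of_monic _ _ fun i _ => hPm i
  have hGn : G.natDegree = n := by
    rw [hG, natDegree_prod_of_monic _ _ fun i _ => hPm i]
    exact Finset.sum_congr rfl fun i _ => hPn i
  have hGc : ∀ i, (G.coeff i).natDegree ≤ Fintype.card ι * d0 := by
    intro i
    exact coef_prod hPc Finset.univ i
  have hYr : ∀ a, aeval (Y a) ((P (e a).1).map (mapRingHom (algebraMap F k))) = 0 := fun a =>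
    root_iter hΨ _ (hroot _) _
  have hGr : ∀ a, aeval (Y a) (G.map (mapRingHom (algebraMap F k))) = 0 := by
    intro a
    rw [hG, Polynomial.map_prod, map_prod]
    exact Finset.prod_eq_zero (Finset.mem_univ (e a).1) (hYr a)
  refine (hC0 F k M Ψ hΨ G hGm hGn hGc Y hY hGr hcard).trans
    (Nat.mul_le_mul_left _ (Set.ncard_le_ncard ?_ (Set.toFinite _)))
  rintro t0 ⟨η, hrel, hprod, hsep, hfr⟩
  show ∀ i, Irreducible ((P i).map (evalRingHom t0))
  have hη : Function.Injective η := by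
    have h1 : (∏ j, (X - C (η j))).Separable := by rw [← hprod]; exact hsep.map
    exact separable_prod_X_sub_C_iff.1 h1
  intro i
  set p0 := (P i).map (evalRingHom t0) with hp0
  have hp0m : p0.Monic := (hPm i).map _
  have hp0n : p0.natDegree = m i := by rw [hp0, (hPm i).natDegree_map, hPn]
  -- the roots of `p0`
  have hev : ∀ (Q : F[X][X]) (x : k), eval₂ (evalRingHom (algebraMap F k t0)) x
      (Q.map (mapRingHom (algebraMap F k))) = ((Q.map (evalRingHom t0)).map (algebraMap F k)).eval x := by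
    intro Q x
    rw [eval₂_map, Polynomial.map_map, eval_map]
    congr 1
    apply Polynomial.ringHom_ext
    · intro c
      simp
    · simp
  have hηr : ∀ (l : ℕ) (h : l < m i), (p0.map (algebraMap F k)).eval (η (e.symm ⟨i, ⟨l, h⟩⟩)) = 0 := by
    intro l h
    rw [hp0, ← hev]
    apply hrel
    have h1 := hYr (e.symm ⟨i, ⟨l, h⟩⟩)
    rw [Equiv.apply_symm_apply] at h1
    exact h1
  have hη2 : Function.Injective fun l : Fin (m i) => η (e.symm ⟨i, l⟩) := by
    intro a b hab
    have h1 := e.symm.injective (hη hab)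
    have h2 := (Sigma.mk.inj h1).2
    exact eq_of_heq h2
  have hp0r := eq_prod_roots (p0.map (algebraMap F k)) (hp0m.map _)
    (by rw [hp0m.natDegree_map, hp0n]) (fun l : Fin (m i) => η (e.symm ⟨i, l⟩)) hη2
    fun l => hηr l l.2
  -- Frobenius
  have hYe : ∀ (l : ℕ) (h : l < m i), Y (e.symm ⟨i, ⟨l, h⟩⟩) = Ψ^[l] (y i) := by
    intro l h
    show Ψ^[((e (e.symm ⟨i, ⟨l, h⟩⟩)).2 : ℕ)] (y (e (e.symm ⟨i, ⟨l, h⟩⟩)).1) = _
    rw [Equiv.apply_symm_apply]
  have hper : Ψ^[m i] (y i) = y i := per_of hΨ (P i) (hPm i) (hPn i) (hroot i)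
    (fun l l' hl hl' h => (hinj i i l l' hl hl' h).2) (hm i)
  have hstep : ∀ (l : ℕ) (h : l < m i), fr F k (η (e.symm ⟨i, ⟨l, h⟩⟩)) =
      η (e.symm ⟨i, ⟨(l + 1) % m i, Nat.mod_lt _ (hm i)⟩⟩) := by
    intro l h
    symm
    apply hfr
    rw [hYe, hYe, ← Function.iterate_succ_apply' Ψ l]
    rcases Nat.lt_or_ge (l + 1) (m i) with h1 | h1
    · rw [Nat.mod_eq_of_lt h1]
    · have h2 : l + 1 = m i := by omega
      rw [Nat.succ_eq_add_one, h2, Nat.mod_self, hper]
      rfl
  -- an irreducible factor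
  have hnu : ¬ IsUnit p0 := by
    intro hu
    have h1 := natDegree_eq_zero_of_isUnit hu
    rw [hp0n] at h1
    exact absurd h1 (hm i).ne'
  obtain ⟨q, hqm, hqi, hqd⟩ := exists_monic_irreducible_factor p0 hnu
  obtain ⟨ρ, hρ⟩ := IsAlgClosed.exists_root (q.map (algebraMap F k)) (by
    rw [degree_map]
    exact (degree_pos_of_irreducible hqi).ne')
  have hρ0 : (p0.map (algebraMap F k)).eval ρ = 0 := by
    obtain ⟨v, hv⟩ := hqd
    rw [hv, Polynomial.map_mul, eval_mul, hρ, zero_mul]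
  obtain ⟨l0, hl0⟩ : ∃ l0 : Fin (m i), ρ = η (e.symm ⟨i, l0⟩) := by
    rw [hp0r, eval_prod, Finset.prod_eq_zero_iff] at hρ0
    obtain ⟨l, -, hl⟩ := hρ0
    rw [eval_sub, eval_X, eval_C, sub_eq_zero] at hl
    exact ⟨l, hl⟩
  have hfrq : ∀ x : k, (q.map (algebraMap F k)).eval x = 0 →
      (q.map (algebraMap F k)).eval (fr F k x) = 0 := by
    intro x hx
    have h1 := congrArg (fr F k) hx
    rw [map_zero, eval_map, hom_eval₂, fr_comp, ← eval_map] at h1
    exact h1
  have hall : ∀ j : ℕ, (q.map (algebraMap F k)).eval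
      (η (e.symm ⟨i, ⟨((l0 : ℕ) + j) % m i, Nat.mod_lt _ (hm i)⟩⟩)) = 0 := by
    intro j
    induction j with
    | zero =>
      have h1 : (⟨((l0 : ℕ) + 0) % m i, Nat.mod_lt _ (hm i)⟩ : Fin (m i)) = l0 :=
        Fin.ext (by simp [Nat.mod_eq_of_lt l0.2])
      rw [h1, ← hl0]
      exact hρ
    | succ j ih =>
      have h1 := hfrq _ ih
      rw [hstep] at h1
      have h2 : (⟨(((l0 : ℕ) + j) % m i + 1) % m i, Nat.mod_lt _ (hm i)⟩ : Fin (m i)) =
          ⟨((l0 : ℕ) + (j + 1)) % m i, Nat.mod_lt _ (hm i)⟩ :=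
        Fin.ext (by simp [Nat.mod_add_mod, add_assoc])
      rw [h2] at h1
      exact h1
  have hall' : ∀ l : Fin (m i), (q.map (algebraMap F k)).eval (η (e.symm ⟨i, l⟩)) = 0 := by
    intro l
    have h1 := hall (l + (m i - l0))
    have h2 : (⟨((l0 : ℕ) + ((l : ℕ) + (m i - (l0 : ℕ)))) % m i, Nat.mod_lt _ (hm i)⟩ :
        Fin (m i)) = l := by
      apply Fin.ext
      have h3 : (l0 : ℕ) + ((l : ℕ) + (m i - (l0 : ℕ))) = (l : ℕ) + m i := by
        have := l0.2
        omega
      simp only [h3, Nat.add_mod_right, Nat.mod_eq_of_lt l.2]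
    rw [h2] at h1
    exact h1
  have hdeg : m i ≤ q.natDegree := by
    have h1 : (∏ l : Fin (m i), (X - C (η (e.symm ⟨i, l⟩)))) ∣ q.map (algebraMap F k) := by
      apply Finset.prod_dvd_of_coprime
      · intro a _ b _ hab
        exact pairwise_coprime_X_sub_C hη2 hab
      · intro a _
        exact dvd_iff_isRoot.2 (hall' a)
    have h2 := natDegree_le_of_dvd h1 (hqm.map _).ne_zero
    rw [natDegree_prod_of_monic _ _ fun j _ => monic_X_sub_C _, hqm.natDegree_map] at h2
    simpa using h2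
  have heq := eq_of_monic_of_dvd_of_natDegree_le hqm hp0m hqd (by rw [hp0n]; exact hdeg)
  rw [heq]
  exact hqi

end Run7.h905.CB
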