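import Pool.Agent.Run7.h905.CB.Cb
import Pool.Agent.H470.Psf

/-!
# The Frobenius map at infinity
-/

set_option autoImplicit false
set_option linter.all false
set_option maxHeartbeats 400000

open Polynomial

namespace Run7.h905.CB

open Pool.Agent.H470 Pool.Agent

section psi

variable (F : Type) {k : Type} [Field F] [Finite F] [Field k] [Algebra F k]

/-- `∑ a_i z ^ i ↦ ∑ a_i ^ q w ^ i z ^ i`. -/
noncomputable def psi0 (w : k) : PowerSeries k →+* PowerSeries k :=
  (PowerSeries.rescale w).comp (PowerSeries.map (fr F k))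

theorem psi0_coeff (w : k) (A : PowerSeries k) (i : ℕ) :
    PowerSeries.coeff i (psi0 F w A) = w ^ i * fr F k (PowerSeries.coeff i A) := by
  unfold psi0
  rw [RingHom.comp_apply, PowerSeries.coeff_rescale, PowerSeries.coeff_map]

theorem psi0_C (w c : k) : psi0 F w (PowerSeries.C c) = PowerSeries.C (fr F k c) := by
  ext i
  rw [psi0_coeff, PowerSeries.coeff_C, PowerSeries.coeff_C]
  split_ifs with h
  · rw [h, pow_zero, one_mul]
  · rw [map_zero, mul_zero]

theorem psi0_X (w : k) : psi0 F w PowerSeries.X = PowerSeries.C w * PowerSeries.X := by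
  ext i
  rw [psi0_coeff, PowerSeries.coeff_C_mul, PowerSeries.coeff_X]
  split_ifs with h
  · rw [h, pow_one, map_one]
  · rw [map_zero, mul_zero, mul_zero]

theorem psi0_cc (w : k) (A : PowerSeries k) :
    PowerSeries.constantCoeff (psi0 F w A) = fr F k (PowerSeries.constantCoeff A) := by
  rw [← PowerSeries.coeff_zero_eq_constantCoeff_apply, psi0_coeff, pow_zero, one_mul,
    PowerSeries.coeff_zero_eq_constantCoeff_apply]

theorem psi0_inj {w : k} (hw : w ≠ 0) : Function.Injective (psi0 F w) := by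
  rw [injective_iff_map_eq_zero]
  intro A hA
  ext i
  have h1 := congrArg (PowerSeries.coeff i) hA
  rw [psi0_coeff, map_zero] at h1
  rcases mul_eq_zero.1 h1 with h2 | h2
  · exact absurd h2 (pow_ne_zero _ hw)
  · rw [map_zero]
    exact (map_eq_zero (fr F k)).1 h2

/-- The extension to the field of fractions. -/
noncomputable def psi {w : k} (hw : w ≠ 0) : PSF k →+* PSF k :=
  IsFractionRing.map (A := PowerSeries k) (B := PowerSeries k) (K := FractionRing (PowerSeries k))
    (L := FractionRing (PowerSeries k)) (psi0_inj F hw)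

theorem psi_to {w : k} (hw : w ≠ 0) (A : PowerSeries k) :
    psi F hw (toPSF k A) = toPSF k (psi0 F w A) := by
  unfold psi toPSF IsFractionRing.map
  exact IsLocalization.map_eq (S := FractionRing (PowerSeries k))
    (Q := FractionRing (PowerSeries k)) _ A

/-- The elements `A / z ^ a`. -/
noncomputable def lam (A : PowerSeries k) (u : k) (a : ℕ) : PSF k :=
  toPSF k A * (toPSF k (PowerSeries.C u * PowerSeries.X ^ a))⁻¹

theorem psi_lam {w : k} (hw : w ≠ 0) (A : PowerSeries k) (u : k) (a : ℕ) :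
    psi F hw (lam A u a) = lam (psi0 F w A) (fr F k u * w ^ a) a := by
  unfold lam
  rw [map_mul, map_inv₀, psi_to, psi_to, map_mul, psi0_C, map_pow, psi0_X, mul_pow, ← map_pow,
    ← mul_assoc, ← map_mul]

theorem psi_iter {w : k} (hw : w ≠ 0) (hfw : fr F k w = w) {A : PowerSeries k}
    (hA : PowerSeries.constantCoeff A = 1) (a l : ℕ) :
    ∃ B : PowerSeries k, PowerSeries.constantCoeff B = 1 ∧
      (psi F hw)^[l] (lam A 1 a) = lam B (w ^ (a * l)) a := by
  induction l with
  | zero => exact ⟨A, hA, by rw [mul_zero, pow_zero]; rfl⟩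
  | succ l ih =>
    obtain ⟨B, hB, h1⟩ := ih
    refine ⟨psi0 F w B, by rw [psi0_cc, hB, map_one], ?_⟩
    rw [Function.iterate_succ_apply', h1, psi_lam, map_pow, hfw, ← pow_add, mul_add, mul_one]

theorem lam_eq {A B : PowerSeries k} {u v : k} {a b : ℕ} (hu : u ≠ 0) (hv : v ≠ 0)
    (h : lam A u a = lam B v b) :
    A * (PowerSeries.C v * PowerSeries.X ^ b) = B * (PowerSeries.C u * PowerSeries.X ^ a) := by
  have hne : ∀ (c : k) (d : ℕ), c ≠ 0 → toPSF k (PowerSeries.C c * PowerSeries.X ^ d) ≠ 0 := by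
    intro c d hc
    rw [Ne, map_eq_zero_iff _ (toPSF_injective k)]
    refine mul_ne_zero ?_ (pow_ne_zero _ PowerSeries.X_ne_zero)
    intro h0
    have h1 := congrArg PowerSeries.constantCoeff h0
    rw [PowerSeries.constantCoeff_C, map_zero] at h1
    exact hc h1
  unfold lam at h
  apply toPSF_injective k
  rw [map_mul (toPSF k) A, map_mul (toPSF k) B]
  have h1 := hne u a hu
  have h2 := hne v b hv
  field_simp at h
  linear_combination h

theorem lam_same {A B : PowerSeries k} (hA : PowerSeries.constantCoeff A = 1)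
    (hB : PowerSeries.constantCoeff B = 1) {u v : k} {a : ℕ} (hu : u ≠ 0) (hv : v ≠ 0)
    (h : lam A u a = lam B v a) : u = v := by
  have h1 := lam_eq hu hv h
  rw [← mul_assoc, ← mul_assoc] at h1
  have h2 := mul_right_cancel₀ (pow_ne_zero _ PowerSeries.X_ne_zero) h1
  have h3 := congrArg PowerSeries.constantCoeff h2
  rw [map_mul, map_mul, hA, hB, PowerSeries.constantCoeff_C, PowerSeries.constantCoeff_C, one_mul,
    one_mul] at h3
  exact h3.symm

theorem lam_ne {A B : PowerSeries k} (hA : PowerSeries.constantCoeff A = 1)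
    (hB : PowerSeries.constantCoeff B = 1) {u v : k} {a b : ℕ} (hu : u ≠ 0) (hv : v ≠ 0)
    (hab : a ≠ b) : lam A u a ≠ lam B v b := by
  intro h
  have h1 := lam_eq hu hv h
  wlog hlt : a < b generalizing A B u v a b
  · exact this hB hA hv hu hab.symm h.symm h1.symm (by omega)
  obtain ⟨c, rfl⟩ : ∃ c, b = a + (c + 1) := ⟨b - a - 1, by omega⟩
  have h2 : (A * PowerSeries.C v * PowerSeries.X ^ (c + 1)) * PowerSeries.X ^ a =
      (B * PowerSeries.C u) * PowerSeries.X ^ a := by
    rw [pow_add] at h1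
    linear_combination h1
  have h3 := mul_right_cancel₀ (pow_ne_zero _ PowerSeries.X_ne_zero) h2
  have h4 := congrArg PowerSeries.constantCoeff h3
  rw [map_mul, map_mul, map_mul, map_pow, PowerSeries.constantCoeff_X, zero_pow (by omega),
    mul_zero, hB, one_mul, PowerSeries.constantCoeff_C] at h4
  exact hu h4.symm

end psi

section emb

variable (k : Type) [Field k]

/-- `X ↦ z ^ (-N)`. -/
noncomputable def embI (N : ℕ) : k[X] →+* PSF k :=
  eval₂RingHom ((toPSF k).comp PowerSeries.C) (toPSF k (PowerSeries.X ^ N))⁻¹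

theorem embI_C (N : ℕ) (c : k) : embI k N (C c) = toPSF k (PowerSeries.C c) := by
  unfold embI
  rw [coe_eval₂RingHom, eval₂_C]
  rfl

theorem embI_X (N : ℕ) : embI k N X = (toPSF k (PowerSeries.X ^ N))⁻¹ := by
  unfold embI
  rw [coe_eval₂RingHom, eval₂_X]

theorem toX_ne (N : ℕ) : toPSF k (PowerSeries.X ^ N) ≠ 0 := by
  rw [Ne, map_eq_zero_iff _ (toPSF_injective k)]
  exact pow_ne_zero _ PowerSeries.X_ne_zero

theorem embI_inj {N : ℕ} (hN : 0 < N) : Function.Injective (embI k N) := by
  rw [injective_iff_map_eq_zero]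
  intro p hp
  by_contra hp0
  -- multiply by `z ^ (N * deg)`
  have h1 : (toPSF k (PowerSeries.X ^ N)) ^ p.natDegree * embI k N p =
      toPSF k (∑ i ∈ Finset.range (p.natDegree + 1),
        PowerSeries.C (p.coeff i) * (PowerSeries.X ^ N) ^ (p.natDegree - i)) := by
    unfold embI
    rw [coe_eval₂RingHom, eval₂_eq_sum_range, Finset.mul_sum, map_sum]
    refine Finset.sum_congr rfl fun i hi => ?_
    have hi' : i ≤ p.natDegree := Nat.lt_succ_iff.1 (Finset.mem_range.1 hi)
    have hne := toX_ne k N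
    have h2 : (toPSF k (PowerSeries.X ^ N)) ^ p.natDegree =
        (toPSF k (PowerSeries.X ^ N)) ^ (p.natDegree - i) * (toPSF k (PowerSeries.X ^ N)) ^ i := by
      rw [← pow_add, Nat.sub_add_cancel hi']
    rw [h2, inv_pow, RingHom.comp_apply, map_mul, map_pow (toPSF k) (PowerSeries.X ^ N)]
    have h3 : (toPSF k (PowerSeries.X ^ N)) ^ i ≠ 0 := pow_ne_zero _ hne
    field_simp
  rw [hp, mul_zero] at h1
  have h2 := toPSF_injective k (h1.symm.trans (map_zero _).symm)
  have h3 := congrArg PowerSeries.constantCoeff h2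
  rw [map_sum, map_zero, Finset.sum_eq_single p.natDegree] at h3
  · rw [Nat.sub_self, pow_zero, mul_one, PowerSeries.constantCoeff_C] at h3
    exact hp0 (leadingCoeff_eq_zero.1 h3)
  · intro i hi hne
    have hi' : i ≤ p.natDegree := Nat.lt_succ_iff.1 (Finset.mem_range.1 hi)
    rw [map_mul, map_pow, map_pow, PowerSeries.constantCoeff_X, zero_pow hN.ne', zero_pow (by omega),
      mul_zero]
  · intro h
    exact absurd (Finset.mem_range.2 (Nat.lt_succ_self _)) h

end emb

section roots

variable {k : Type} [Field k]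

theorem cc_eval (p : (PowerSeries k)[X]) (c : k) :
    PowerSeries.constantCoeff (p.eval (PowerSeries.C c)) =
      (p.map PowerSeries.constantCoeff).eval c := by
  rw [eval_map, ← eval₂_at_apply, PowerSeries.constantCoeff_C]

/-- The root of `g(T) = z ^ (-n a)`, `T = A / z ^ a`. -/
theorem root_g {g : k[X]} (hg : g.Monic) {n a : ℕ} (hgn : g.natDegree = n) (hn : (n : k) ≠ 0)
    (ha : 0 < a) : ∃ A : PowerSeries k, PowerSeries.constantCoeff A = 1 ∧
      eval₂ ((toPSF k).comp PowerSeries.C) (lam A 1 a) g = (toPSF k (PowerSeries.X ^ (n * a)))⁻¹ := by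
  have hn0 : n ≠ 0 := by
    rintro rfl
    exact hn Nat.cast_zero
  set gp : (PowerSeries k)[X] := g.map PowerSeries.C with hgp
  set f : (PowerSeries k)[X] := gp.scaleRoots (PowerSeries.X ^ a) - C 1 with hf
  have hgpm : gp.Monic := hg.map _
  have hfm : f.map PowerSeries.constantCoeff = X ^ n - C 1 := by
    rw [hf, Polynomial.map_sub, map_C, map_one, map_scaleRoots, map_pow, PowerSeries.constantCoeff_X,
      zero_pow ha.ne', scaleRoots_zero, (hgpm.map _).leadingCoeff, one_smul, hgpm.natDegree_map,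
      hgp, hg.natDegree_map, hgn]
    rw [hgpm.leadingCoeff, map_one]
    exact one_ne_zero
  have hcc : ∀ (p : (PowerSeries k)[X]) (c : k), PowerSeries.constantCoeff (p.eval (PowerSeries.C c)) =
      (p.map PowerSeries.constantCoeff).eval c := by
    exact cc_eval
  obtain ⟨A, hA, hA1⟩ := hensel f 1 (by rw [hcc, hfm]; simp) (by
    rw [hcc, ← derivative_map, hfm]
    simp [derivative_X_pow, hn])
  refine ⟨A, hA1, ?_⟩
  have hX := toX_ne k a
  have h1 := scaleRoots_eval₂_mul (p := gp) (toPSF k) (lam A 1 a) (PowerSeries.X ^ a)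
  have h2 : toPSF k (PowerSeries.X ^ a) * lam A 1 a = toPSF k A := by
    unfold lam
    rw [map_one, one_mul]
    field_simp
  rw [h2] at h1
  have h3 : gp.scaleRoots (PowerSeries.X ^ a) = f + C 1 := by rw [hf]; ring
  rw [eval₂_at_apply, h3, eval_add, hA, eval_C, zero_add, map_one, hgp, eval₂_map,
    hg.natDegree_map, hgn] at h1
  rw [mul_comm n a, pow_mul, map_pow (toPSF k) (PowerSeries.X ^ a)]
  exact eq_inv_of_mul_eq_one_right h1.symm

/-- The `s`-th roots of `z ^ (-a s) - d`. -/
theorem root_p (d : k) {s a : ℕ} (hs : (s : k) ≠ 0) (ha : 0 < a) :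
    ∃ A : PowerSeries k, PowerSeries.constantCoeff A = 1 ∧
      lam A 1 a ^ s = (toPSF k (PowerSeries.X ^ (a * s)))⁻¹ - toPSF k (PowerSeries.C d) := by
  have hs0 : s ≠ 0 := by
    rintro rfl
    exact hs Nat.cast_zero
  set f : (PowerSeries k)[X] := X ^ s - C (1 - PowerSeries.C d * PowerSeries.X ^ (a * s)) with hf
  have hfm : f.map PowerSeries.constantCoeff = X ^ s - C 1 := by
    rw [hf, Polynomial.map_sub, Polynomial.map_pow, map_X, map_C, map_sub, map_mul, map_pow,
      PowerSeries.constantCoeff_X, zero_pow (Nat.mul_pos ha (Nat.pos_of_ne_zero hs0)).ne', mul_zero,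
      sub_zero, map_one]
  obtain ⟨A, hA, hA1⟩ := hensel f 1 (by rw [cc_eval, hfm]; simp) (by
    rw [cc_eval, ← derivative_map, hfm]
    simp [derivative_X_pow, hs])
  refine ⟨A, hA1, ?_⟩
  have hA2 : A ^ s = 1 - PowerSeries.C d * PowerSeries.X ^ (a * s) := by
    rw [hf, eval_sub, eval_pow, eval_X, eval_C] at hA
    exact sub_eq_zero.1 hA
  have hX := toX_ne k (a * s)
  unfold lam
  rw [map_one, one_mul, mul_pow, ← map_pow, hA2, inv_pow, ← map_pow, ← pow_mul, map_sub, map_one,
    map_mul]
  field_simp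

end roots

end Run7.h905.CB
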