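import Pool.Agent.Run7.h905.CB.Cc

/-!
# The cycles at infinity
-/

set_option autoImplicit false
set_option linter.all false
set_option maxHeartbeats 400000

open Polynomial

namespace Run7.h905.CB

open Pool.Agent.H470 Pool.Agent

section pols

variable {F k M : Type} [Field F] [Field k] [Algebra F k] [Field M] [Algebra k[X] M]

/-- `g(T) - μ`. -/
noncomputable def pG (g : F[X]) : F[X][X] := g.map C - C X

/-- `T ^ s - (μ - d)`. -/
noncomputable def pP (s : ℕ) (d : F) : F[X][X] := X ^ s - C (X - C d)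

/-- `T ^ 2 - Δ(μ)`. -/
noncomputable def pQ (Δ : F[X]) : F[X][X] := X ^ 2 - C Δ

theorem ev_g (g : F[X]) (y : M) : aeval y ((pG g).map (mapRingHom (algebraMap F k))) =
    eval₂ ((algebraMap k[X] M).comp (C.comp (algebraMap F k))) y g - algebraMap k[X] M X := by
  unfold pG
  rw [aeval_def, Polynomial.map_sub, Polynomial.map_map, map_C, eval₂_sub, eval₂_C, eval₂_map,
    coe_mapRingHom, map_X]
  congr 2
  ext a
  simp

theorem ev_p (s : ℕ) (d : F) (y : M) : aeval y ((pP s d).map (mapRingHom (algebraMap F k))) =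
    y ^ s - (algebraMap k[X] M X - algebraMap k[X] M (C (algebraMap F k d))) := by
  unfold pP
  rw [aeval_def, Polynomial.map_sub, Polynomial.map_pow, map_X, map_C, eval₂_sub, eval₂_pow,
    eval₂_X, eval₂_C, map_sub, coe_mapRingHom, map_X, map_C, map_sub]

theorem ev_q (Δ : F[X]) (y : M) : aeval y ((pQ Δ).map (mapRingHom (algebraMap F k))) =
    y ^ 2 - algebraMap k[X] M (Δ.map (algebraMap F k)) := by
  unfold pQ
  rw [aeval_def, Polynomial.map_sub, Polynomial.map_pow, map_X, map_C, eval₂_sub, eval₂_pow,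
    eval₂_X, eval₂_C, coe_mapRingHom]

theorem pG_monic {g : F[X]} (hg : g.Monic) (hd : 0 < g.natDegree) : (pG g).Monic := by
  unfold pG
  apply (hg.map C).sub_of_left
  refine lt_of_le_of_lt degree_C_le ?_
  rw [← natDegree_pos_iff_degree_pos, natDegree_map_eq_of_injective C_injective]
  exact hd

theorem pG_deg {g : F[X]} : (pG g).natDegree = g.natDegree := by
  unfold pG
  rw [natDegree_sub_C, natDegree_map_eq_of_injective C_injective]

theorem pP_monic {s : ℕ} (hs : s ≠ 0) (d : F) : (pP s d).Monic := monic_X_pow_sub_C _ hs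

theorem pP_deg (s : ℕ) (d : F) : (pP s d).natDegree = s := natDegree_X_pow_sub_C

theorem pQ_monic (Δ : F[X]) : (pQ Δ).Monic := monic_X_pow_sub_C _ two_ne_zero

theorem pQ_deg (Δ : F[X]) : (pQ Δ).natDegree = 2 := natDegree_X_pow_sub_C

theorem pG_coef (g : F[X]) (j : ℕ) : ((pG g).coeff j).natDegree ≤ 1 := by
  unfold pG
  rw [coeff_sub, coeff_map, coeff_C]
  refine (natDegree_sub_le _ _).trans (max_le ?_ ?_)
  · rw [natDegree_C]
    exact Nat.zero_le _
  · split_ifs
    · exact natDegree_X_le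
    · simp

theorem pP_coef (s : ℕ) (d : F) (j : ℕ) : ((pP s d).coeff j).natDegree ≤ 1 := by
  unfold pP
  rw [coeff_sub, coeff_X_pow, coeff_C]
  refine (natDegree_sub_le _ _).trans (max_le ?_ ?_)
  · split_ifs <;> simp
  · split_ifs
    · rw [natDegree_X_sub_C]
    · simp

theorem pQ_coef {Δ : F[X]} (hΔ : Δ.natDegree ≤ 2) (j : ℕ) : ((pQ Δ).coeff j).natDegree ≤ 2 := by
  unfold pQ
  rw [coeff_sub, coeff_X_pow, coeff_C]
  refine (natDegree_sub_le _ _).trans (max_le ?_ ?_)
  · split_ifs <;> simp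
  · split_ifs
    · exact hΔ
    · simp

theorem pG_spec (g : F[X]) (t0 : F) : (pG g).map (evalRingHom t0) = g - C t0 := by
  unfold pG
  rw [Polynomial.map_sub, Polynomial.map_map, map_C, coe_evalRingHom, eval_X]
  congr 1
  have : (evalRingHom t0).comp C = RingHom.id F := by
    ext a
    simp
  rw [this, Polynomial.map_id]

theorem pP_spec (s : ℕ) (d t0 : F) : (pP s d).map (evalRingHom t0) = X ^ s - C (t0 - d) := by
  unfold pP
  rw [Polynomial.map_sub, Polynomial.map_pow, map_X, map_C, coe_evalRingHom, eval_sub, eval_X,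
    eval_C]

theorem pQ_spec (Δ : F[X]) (t0 : F) : (pQ Δ).map (evalRingHom t0) = X ^ 2 - C (Δ.eval t0) := by
  unfold pQ
  rw [Polynomial.map_sub, Polynomial.map_pow, map_X, map_C, coe_evalRingHom]

end pols

/-- **The cycles at infinity.** -/
theorem inf_data {F : Type} [Field F] [Finite F] (k : Type) [Field k] [Algebra F k] {n s : ℕ}
    (hn : 0 < n) (hs : 0 < s) (hns : n ≠ s) {ω : F} (hω : IsPrimitiveRoot ω (n * s)) {g : F[X]}
    (hg : g.Monic) (hgn : g.natDegree = n) {ι : Type} {d : ι → F} (hd : Function.Injective d) :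
    ∃ (M : Type) (_ : Field M) (_ : Algebra (RatFunc k) M) (_ : Algebra k[X] M)
      (_ : IsScalarTower k[X] (RatFunc k) M) (Ψ : M →+* M) (t : M) (β : ι → M),
      Semi F (k := k) Ψ ∧ aeval t ((pG g).map (mapRingHom (algebraMap F k))) = 0 ∧
      (∀ i, aeval (β i) ((pP s (d i)).map (mapRingHom (algebraMap F k))) = 0) ∧
      (∀ l l', l < n → l' < n → Ψ^[l] t = Ψ^[l'] t → l = l') ∧
      (∀ i j l l', l < s → l' < s → Ψ^[l] (β i) = Ψ^[l'] (β j) → i = j ∧ l = l') ∧
      ∀ l l' i, Ψ^[l] t ≠ Ψ^[l'] (β i) := by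
  have hN : 0 < n * s := Nat.mul_pos hn hs
  haveI : NeZero (n * s) := ⟨hN.ne'⟩
  have hNk : ((n * s : ℕ) : k) ≠ 0 := by
    have h1 := hω.neZero'.out
    rw [← map_natCast (algebraMap F k)]
    rwa [Ne, map_eq_zero]
  rw [Nat.cast_mul] at hNk
  have hnk : (n : k) ≠ 0 := left_ne_zero_of_mul hNk
  have hsk : (s : k) ≠ 0 := right_ne_zero_of_mul hNk
  set w : k := algebraMap F k ω with hw
  have hw0 : w ≠ 0 := by
    rw [hw, Ne, map_eq_zero]
    exact hω.ne_zero hN.ne'
  have hfw : fr F k w = w := fr_algebraMap F k ω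
  have hwp : IsPrimitiveRoot w (n * s) := hω.map_of_injective (algebraMap F k).injective
  have hws : IsPrimitiveRoot (w ^ s) n := hwp.pow hN (mul_comm n s)
  have hwn : IsPrimitiveRoot (w ^ n) s := hwp.pow hN rfl
  letI i1 : Algebra k[X] (PSF k) := (embI k (n * s)).toAlgebra
  letI i2 : Algebra (RatFunc k) (PSF k) := (IsFractionRing.lift (embI_inj k hN)).toAlgebra
  haveI i3 : IsScalarTower k[X] (RatFunc k) (PSF k) := IsScalarTower.of_algebraMap_eq fun p =>
    (IsFractionRing.lift_algebraMap (embI_inj k hN) p).symm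
  have haC : ∀ c : k, algebraMap k[X] (PSF k) (C c) = toPSF k (PowerSeries.C c) := embI_C k _
  have haX : algebraMap k[X] (PSF k) X = (toPSF k (PowerSeries.X ^ (n * s)))⁻¹ := embI_X k _
  have hΨ : Semi F (k := k) (psi F hw0) := by
    refine ⟨?_, ?_⟩
    · intro c
      rw [haC, haC, psi_to, psi0_C]
    · rw [haX, map_inv₀, psi_to, map_pow, psi0_X, mul_pow, ← map_pow, hwp.pow_eq_one, map_one,
        one_mul]
  obtain ⟨A, hA1, hA⟩ := root_g (hg.map (algebraMap F k)) (by rw [hg.natDegree_map, hgn]) hnk hs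
  have hB : ∀ i, ∃ B : PowerSeries k, PowerSeries.constantCoeff B = 1 ∧
      lam B 1 n ^ s = (toPSF k (PowerSeries.X ^ (n * s)))⁻¹ -
        toPSF k (PowerSeries.C (algebraMap F k (d i))) := fun i => root_p _ hsk hn
  choose B hB1 hB using hB
  have hiA := psi_iter F hw0 hfw hA1 s
  have hiB := fun i => psi_iter F hw0 hfw (hB1 i) n
  have hpow : ∀ j, w ^ j ≠ 0 := fun j => pow_ne_zero _ hw0
  have hrB : ∀ i, aeval (lam (B i) 1 n) ((pP s (d i)).map (mapRingHom (algebraMap F k))) = 0 := by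
    intro i
    rw [ev_p, hB i, haX, haC, sub_self]
  refine ⟨PSF k, inferInstance, i2, i1, i3, psi F hw0, lam A 1 s, fun i => lam (B i) 1 n, hΨ, ?_,
    hrB, ?_, ?_, ?_⟩
  · rw [ev_g, haX, ← hA, eval₂_map, sub_eq_zero]
    congr 1
    ext a
    simp only [RingHom.comp_apply]
    rw [haC]
  · intro l l' hl hl' h
    obtain ⟨A1, h1, h2⟩ := hiA l
    obtain ⟨A2, h3, h4⟩ := hiA l'
    rw [h2, h4] at h
    have h5 := lam_same h1 h3 (hpow _) (hpow _) h
    rw [pow_mul, pow_mul] at h5
    exact hws.pow_inj hl hl' h5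
  · intro i j l l' hl hl' h
    have h1 := root_iter hΨ _ (hrB i) l
    have h2 := root_iter hΨ _ (hrB j) l'
    rw [ev_p, sub_eq_zero] at h1 h2
    rw [h, h2] at h1
    have h3 := sub_right_injective h1
    have h4 : (algebraMap k[X] (PSF k)) (C (algebraMap F k (d j))) =
        (algebraMap k[X] (PSF k)) (C (algebraMap F k (d i))) := h3
    have h5 := C_injective (embI_inj k hN h4)
    have h6 : j = i := hd ((algebraMap F k).injective h5)
    subst h6
    refine ⟨rfl, ?_⟩
    obtain ⟨A1, h7, h8⟩ := hiB j l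
    obtain ⟨A2, h9, h10⟩ := hiB j l'
    rw [h8, h10] at h
    have h11 := lam_same h7 h9 (hpow _) (hpow _) h
    rw [pow_mul, pow_mul] at h11
    exact hwn.pow_inj hl hl' h11
  · intro l l' i h
    obtain ⟨A1, h1, h2⟩ := hiA l
    obtain ⟨A2, h3, h4⟩ := hiB i l'
    rw [h2, h4] at h
    exact lam_ne h1 h3 (hpow _) (hpow _) hns.symm h

end Run7.h905.CB
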