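import Pool.Agent.Run7.h905.CB.Cd

/-!
# An unramified place
-/

set_option autoImplicit false
set_option linter.all false
set_option maxHeartbeats 400000

open Polynomial

namespace Run7.h905.CB

open Pool.Agent.H470 Pool.Agent

section

variable {k : Type} [Field k]

/-- `p ↦ p(a + z)` in the power series. -/
noncomputable def psA (a : k) : k[X] →+* PowerSeries k :=
  (coeToPowerSeries.ringHom (R := k)).comp (compRingHom (X + C a))

theorem psA_embT (a : k) (p : k[X]) : toPSF k (psA a p) = embT (X + C a) p := rfl

theorem psA_cc (a : k) : (PowerSeries.constantCoeff (R := k)).comp (psA a) = evalRingHom a := by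
  apply Polynomial.ringHom_ext
  · intro c
    show PowerSeries.constantCoeff (((C c).comp (X + C a) : k[X]) : PowerSeries k) = _
    rw [C_comp, coe_C, PowerSeries.constantCoeff_C, coe_evalRingHom, eval_C]
  · show PowerSeries.constantCoeff (((X : k[X]).comp (X + C a) : k[X]) : PowerSeries k) = _
    rw [X_comp, coe_add, coe_X, coe_C, map_add, PowerSeries.constantCoeff_X,
      PowerSeries.constantCoeff_C, zero_add, coe_evalRingHom, eval_X]

theorem split_at [IsAlgClosed k] {a : k} {f : k[X][X]} (hf : f.Monic)
    (hs : (f.map (evalRingHom a)).Separable) : (f.map (embT (X + C a))).Splits := by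
  classical
  set fh : (PowerSeries k)[X] := f.map (psA a) with hfh
  have hcc : fh.map PowerSeries.constantCoeff = f.map (evalRingHom a) := by
    rw [hfh, Polynomial.map_map, psA_cc]
  have hmap : f.map (embT (X + C a)) = fh.map (toPSF k) := by
    rw [hfh, Polynomial.map_map]
    rfl
  have hfhm : fh.Monic := hf.map _
  set f0 := f.map (evalRingHom a) with hf0
  have hf0m : f0.Monic := hf.map _
  have hex : ∀ w : k, f0.eval w = 0 → ∃ W : PowerSeries k, fh.eval W = 0 ∧
      PowerSeries.constantCoeff W = w := by
    intro w hw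
    apply hensel fh w
    · rw [cc_eval, hcc]
      exact hw
    · rw [cc_eval, ← derivative_map, hcc]
      intro h0
      have h1 := hs.eval₂_derivative_ne_zero (RingHom.id k) (x := w) (by
        rw [eval₂_id]
        exact hw)
      rw [eval₂_id] at h1
      exact h1 h0
  choose! W hW hWc using hex
  have hcard : f0.roots.toFinset.card = f.natDegree := by
    rw [Multiset.toFinset_card_of_nodup (nodup_roots hs),
      ← (IsAlgClosed.splits f0).natDegree_eq_card_roots, hf0, hf.natDegree_map]
  rw [splits_iff_card_roots]
  apply le_antisymm (card_roots' _)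
  rw [hf.natDegree_map, ← hcard]
  have hsub : f0.roots.toFinset.image (fun w => toPSF k (W w)) ⊆
      (f.map (embT (X + C a))).roots.toFinset := by
    intro x hx
    rw [Finset.mem_image] at hx
    obtain ⟨w, hw, rfl⟩ := hx
    rw [Multiset.mem_toFinset, mem_roots hf0m.ne_zero] at hw
    rw [Multiset.mem_toFinset, mem_roots (hf.map _).ne_zero, IsRoot.def, hmap, eval_map,
      eval₂_at_apply, hW w hw, map_zero]
  have hinj : Set.InjOn (fun w => toPSF k (W w)) (f0.roots.toFinset : Set k) := by
    intro x hx y hy hxy
    rw [Finset.mem_coe, Multiset.mem_toFinset, mem_roots hf0m.ne_zero] at hx hy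
    have h1 := toPSF_injective k hxy
    rw [← hWc x hx, ← hWc y hy]
    exact congrArg _ h1
  calc f0.roots.toFinset.card = (f0.roots.toFinset.image fun w => toPSF k (W w)).card :=
        (Finset.card_image_of_injOn hinj).symm
    _ ≤ (f.map (embT (X + C a))).roots.toFinset.card := Finset.card_le_card hsub
    _ ≤ _ := Multiset.toFinset_card_le _

theorem notsq_at {a : k} {E : k[X]} (hE : E.eval a ≠ 0) (w : PSF k) :
    w ^ 2 ≠ embT (X + C a) ((X - C a) * E) := by
  intro h
  have hU : PowerSeries.constantCoeff (psA a E) ≠ 0 := by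
    have h1 := RingHom.congr_fun (psA_cc a) E
    rw [RingHom.comp_apply, coe_evalRingHom] at h1
    rw [h1]
    exact hE
  have h1 : psA a ((X - C a) * E) = PowerSeries.X * psA a E := by
    rw [map_mul]
    congr 1
    show (((X - C a : k[X]).comp (X + C a) : k[X]) : PowerSeries k) = _
    rw [sub_comp, X_comp, C_comp, add_sub_cancel_right, coe_X]
  rw [← psA_embT, h1] at h
  obtain ⟨A, B, hB, hw⟩ := IsFractionRing.div_surjective (A := PowerSeries k)
    (K := FractionRing (PowerSeries k)) w
  have hB0 : B ≠ 0 := nonZeroDivisors.ne_zero hB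
  have hBt : toPSF k B ≠ 0 := by
    rw [Ne, map_eq_zero_iff _ (toPSF_injective k)]
    exact hB0
  have hw' : w * toPSF k B = toPSF k A := by
    rw [← hw]
    exact div_mul_cancel₀ (toPSF k A) hBt
  have h2 : A ^ 2 = PowerSeries.X * psA a E * B ^ 2 := by
    apply toPSF_injective k
    rw [map_pow, ← hw', mul_pow, h, map_mul (toPSF k) (PowerSeries.X * psA a E) (B ^ 2),
      map_pow (toPSF k) B]
  have hA0 : A ≠ 0 := by
    rintro rfl
    have h3 : PowerSeries.X * psA a E * B ^ 2 ≠ 0 := by
      refine mul_ne_zero (mul_ne_zero PowerSeries.X_ne_zero ?_) (pow_ne_zero _ hB0)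
      intro h0
      rw [h0, map_zero] at hU
      exact hU rfl
    rw [← h2, zero_pow two_ne_zero] at h3
    exact h3 rfl
  have h3 := congrArg PowerSeries.order h2
  rw [pow_two, pow_two, PowerSeries.order_mul, PowerSeries.order_mul, PowerSeries.order_mul,
    PowerSeries.order_mul, PowerSeries.order_X, PowerSeries.order_zero_of_unit
      (PowerSeries.isUnit_iff_constantCoeff.2 (isUnit_iff_ne_zero.2 hU)),
    ← PowerSeries.coe_toNat_order hA0, ← PowerSeries.coe_toNat_order hB0] at h3
  have h4 : A.order.toNat + A.order.toNat = 1 + 0 + (B.order.toNat + B.order.toNat) := by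
    exact_mod_cast h3
  omega

/-- The algebra structure given by an embedding. -/
theorem alg_of {R P : Type} [CommRing R] [IsDomain R] [Field P] (K0 : Type) [Field K0] [Algebra R K0]
    [IsFractionRing R K0] (φ : R →+* P) (hφ : Function.Injective φ) :
    ∃ _ : Algebra K0 P, (algebraMap K0 P).comp (algebraMap R K0) = φ := by
  letI i2 : Algebra K0 P := (IsFractionRing.lift hφ).toAlgebra
  refine ⟨i2, ?_⟩
  ext p
  exact IsFractionRing.lift_algebraMap hφ p

/-- **A field in which the polynomials split and the product has no square root.** -/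
theorem fin_data [IsAlgClosed k] (a : k) : ∃ (P : Type) (_ : Field P) (_ : Algebra (RatFunc k) P),
    (∀ f : k[X][X], f.Monic → (f.map (evalRingHom a)).Separable →
      ((f.map (algebraMap k[X] (RatFunc k))).map (algebraMap (RatFunc k) P)).Splits) ∧
    ∀ E : k[X], E.eval a ≠ 0 → ∀ w : P, w ^ 2 ≠
      algebraMap (RatFunc k) P (algebraMap k[X] (RatFunc k) ((X - C a) * E)) := by
  have hinj : Function.Injective (embT (X + C a)) := embT_injective (by
    rw [natDegree_X_add_C]
    exact one_pos)
  obtain ⟨i2, hc⟩ := alg_of (RatFunc k) (embT (X + C a)) hinj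
  refine ⟨PSF k, inferInstance, i2, fun f hf hs => ?_, fun E hE w => ?_⟩
  · rw [Polynomial.map_map, hc]
    exact split_at hf hs
  · have h1 := RingHom.congr_fun hc ((X - C a) * E)
    rw [RingHom.comp_apply] at h1
    rw [h1]
    exact notsq_at hE w

end

end Run7.h905.CB
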