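import Pool.Agent.Run7.h905.CB.Ce
import Mathlib.FieldTheory.KummerExtension

/-!
# The quadratic extension of the splitting field
-/

set_option autoImplicit false
set_option linter.all false
set_option maxHeartbeats 400000

open Polynomial

namespace Run7.h905.CB

open Pool.Agent.H470 Pool.Agent

section split

variable {F k M : Type} [Field F] [Finite F] [Field k] [Algebra F k] [Field M] [Algebra k[X] M]
  {Ψ : M →+* M}

/-- A full cycle of roots splits the polynomial. -/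
theorem splits_of_cycle (hΨ : Semi F (k := k) Ψ) (P : F[X][X]) (hP : P.Monic) {m : ℕ}
    (hm : P.natDegree = m) {y : M} (hy : aeval y (P.map (mapRingHom (algebraMap F k))) = 0)
    (hinj : ∀ l l', l < m → l' < m → Ψ^[l] y = Ψ^[l'] y → l = l') :
    ((P.map (mapRingHom (algebraMap F k))).map (algebraMap k[X] M)).Splits := by
  rw [eq_prod_roots ((P.map (mapRingHom (algebraMap F k))).map (algebraMap k[X] M))
    ((hP.map _).map _) (by rw [(hP.map _).natDegree_map, hP.natDegree_map, hm])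
    (fun l : Fin m => Ψ^[(l : ℕ)] y) (fun a b h => Fin.ext (hinj a b a.2 b.2 h))
    (fun l => by
      rw [eval_map]
      exact root_iter hΨ P hy l)]
  exact Splits.prod fun i _ => Splits.X_sub_C _

end split

section omega

variable {F k M : Type} [Field F] [Finite F] [Field k] [Algebra F k] [Field M]
  [Algebra (RatFunc k) M] [Algebra k[X] M] [IsScalarTower k[X] (RatFunc k) M] {Ψ : M →+* M}

/-- The Frobenius map preserves `k(μ)`. -/
theorem semi_rat (hΨ : Semi F (k := k) Ψ) (r : RatFunc k) :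
    ∃ r', Ψ (algebraMap (RatFunc k) M r) = algebraMap (RatFunc k) M r' := by
  obtain ⟨p, q, hq, rfl⟩ := IsFractionRing.div_surjective (A := k[X]) (K := RatFunc k) r
  refine ⟨algebraMap k[X] (RatFunc k) (p.map (fr F k)) / algebraMap k[X] (RatFunc k) (q.map (fr F k)),
    ?_⟩
  rw [map_div₀, map_div₀, map_div₀, ← IsScalarTower.algebraMap_apply,
    ← IsScalarTower.algebraMap_apply, ← IsScalarTower.algebraMap_apply,
    ← IsScalarTower.algebraMap_apply, hΨ.poly, hΨ.poly]

/-- The Frobenius map preserves the field generated by a stable set. -/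
theorem semi_adjoin (hΨ : Semi F (k := k) Ψ) {S : Set M} (hS : ∀ x ∈ S, Ψ x ∈ S) {x : M}
    (hx : x ∈ IntermediateField.adjoin (RatFunc k) S) :
    Ψ x ∈ IntermediateField.adjoin (RatFunc k) S := by
  refine IntermediateField.adjoin_induction (RatFunc k)
    (p := fun x _ => Ψ x ∈ IntermediateField.adjoin (RatFunc k) S) ?_ ?_ ?_ ?_ ?_ hx
  · intro x hx
    exact IntermediateField.subset_adjoin _ _ (hS x hx)
  · intro r
    obtain ⟨r', hr⟩ := semi_rat hΨ r
    rw [hr]
    exact IntermediateField.algebraMap_mem _ r'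
  · intro x y _ _ h1 h2
    rw [map_add]
    exact add_mem h1 h2
  · intro x _ h1
    rw [map_inv₀]
    exact inv_mem h1
  · intro x y _ _ h1 h2
    rw [map_mul]
    exact mul_mem h1 h2

/-- The restriction. -/
noncomputable def psiR (hΨ : Semi F (k := k) Ψ) {S : Set M} (hS : ∀ x ∈ S, Ψ x ∈ S) :
    IntermediateField.adjoin (RatFunc k) S →+* IntermediateField.adjoin (RatFunc k) S :=
  (Ψ.comp (algebraMap (IntermediateField.adjoin (RatFunc k) S) M)).codRestrict _ fun x =>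
    semi_adjoin hΨ hS x.2

theorem psiR_coe (hΨ : Semi F (k := k) Ψ) {S : Set M} (hS : ∀ x ∈ S, Ψ x ∈ S)
    (x : IntermediateField.adjoin (RatFunc k) S) : (psiR hΨ hS x : M) = Ψ x := rfl

theorem psiR_iter (hΨ : Semi F (k := k) Ψ) {S : Set M} (hS : ∀ x ∈ S, Ψ x ∈ S)
    (x : IntermediateField.adjoin (RatFunc k) S) (l : ℕ) :
    (((psiR hΨ hS)^[l] x : IntermediateField.adjoin (RatFunc k) S) : M) = Ψ^[l] x := by
  induction l with
  | zero => rfl
  | succ l ih => rw [Function.iterate_succ_apply', Function.iterate_succ_apply', psiR_coe, ih]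

end omega

/-- **The quadratic extension.** -/
theorem quad_ext {F k Ω : Type} [Field F] [Finite F] [Field k] [Algebra F k] [Field Ω]
    [Algebra (RatFunc k) Ω] [Algebra k[X] Ω] [IsScalarTower k[X] (RatFunc k) Ω] {Φ : Ω →+* Ω}
    (hΦ : Semi F (k := k) Φ) (Δ : F[X])
    (hns : ∀ w : Ω, w ^ 2 ≠ algebraMap k[X] Ω (Δ.map (algebraMap F k))) (h2 : (2 : Ω) ≠ 0) :
    ∃ (M' : Type) (_ : Field M') (_ : Algebra (RatFunc k) M') (_ : Algebra k[X] M')
      (_ : IsScalarTower k[X] (RatFunc k) M') (Φ' : M' →+* M') (j : Ω →+* M') (δ : M'),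
      Semi F (k := k) Φ' ∧ (∀ x, Φ' (j x) = j (Φ x)) ∧
      (∀ p : k[X], j (algebraMap k[X] Ω p) = algebraMap k[X] M' p) ∧
      aeval δ ((pQ Δ).map (mapRingHom (algebraMap F k))) = 0 ∧ Φ' δ = -δ ∧ δ ≠ -δ ∧
      (∀ x, j x ≠ δ) ∧ ∀ x, j x ≠ -δ := by
  set δ0 : Ω := algebraMap k[X] Ω (Δ.map (algebraMap F k)) with hδ0
  have hirr : Irreducible (X ^ 2 - C δ0) := X_pow_sub_C_irreducible_of_prime Nat.prime_two hns
  haveI : Fact (Irreducible (X ^ 2 - C δ0)) := ⟨hirr⟩
  have hδΦ : Φ δ0 = δ0 := by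
    rw [hδ0, hΦ.poly, Polynomial.map_map, fr_comp]
  have hroot : (AdjoinRoot.root (X ^ 2 - C δ0)) ^ 2 = AdjoinRoot.of (X ^ 2 - C δ0) δ0 := by
    have h1 := AdjoinRoot.eval₂_root (X ^ 2 - C δ0)
    rw [eval₂_sub, eval₂_X_pow, eval₂_C] at h1
    exact sub_eq_zero.1 h1
  let Φ' : AdjoinRoot (X ^ 2 - C δ0) →+* AdjoinRoot (X ^ 2 - C δ0) :=
    AdjoinRoot.lift ((AdjoinRoot.of _).comp Φ) (-AdjoinRoot.root _) (by
      rw [eval₂_sub, eval₂_X_pow, eval₂_C, neg_sq, hroot, RingHom.comp_apply, hδΦ, sub_self])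
  have hΦof : ∀ x, Φ' (AdjoinRoot.of _ x) = AdjoinRoot.of _ (Φ x) := fun x => by
    show AdjoinRoot.lift _ _ _ (AdjoinRoot.of _ x) = _
    rw [AdjoinRoot.lift_of, RingHom.comp_apply]
  have hΦr : Φ' (AdjoinRoot.root _) = -AdjoinRoot.root _ := by
    show AdjoinRoot.lift _ _ _ (AdjoinRoot.root _) = _
    rw [AdjoinRoot.lift_root]
  have halg : ∀ p : k[X], AdjoinRoot.of (X ^ 2 - C δ0) (algebraMap k[X] Ω p) =
      algebraMap k[X] (AdjoinRoot (X ^ 2 - C δ0)) p := fun p => rfl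
  have hinj : Function.Injective (AdjoinRoot.of (X ^ 2 - C δ0)) :=
    (AdjoinRoot.of (X ^ 2 - C δ0)).injective
  have hne : ∀ x, AdjoinRoot.of (X ^ 2 - C δ0) x ≠ AdjoinRoot.root _ := by
    intro x hx
    apply hns x
    apply hinj
    rw [map_pow, hx, hroot]
  have hne' : ∀ x, AdjoinRoot.of (X ^ 2 - C δ0) x ≠ -AdjoinRoot.root _ := by
    intro x hx
    apply hne (-x)
    rw [map_neg, hx, neg_neg]
  refine ⟨AdjoinRoot (X ^ 2 - C δ0), inferInstance, inferInstance, inferInstance, inferInstance,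
    Φ', AdjoinRoot.of _, AdjoinRoot.root _, ⟨?_, ?_⟩, hΦof, halg, ?_, hΦr, ?_, hne, hne'⟩
  · intro c
    rw [← halg, hΦof, hΦ.C, halg]
  · rw [← halg, hΦof, hΦ.X]
  · rw [ev_q, hroot, ← halg, sub_self]
  · intro h
    have h3 : AdjoinRoot.of (X ^ 2 - C δ0) 2 * AdjoinRoot.root (X ^ 2 - C δ0) = 0 := by
      rw [map_ofNat]
      linear_combination h
    rcases mul_eq_zero.1 h3 with h4 | h4
    · exact h2 ((map_eq_zero _).1 h4)
    · apply hne 0
      rw [map_zero, h4]

end Run7.h905.CB
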