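import Pool.Agent.Run7.h905.CB.Cd

/-!
# Simultaneous irreducibility of `g_i - μ`
-/

set_option autoImplicit false
set_option linter.all false
set_option maxHeartbeats 400000

open Polynomial

namespace Run7.h905.CB

open Pool.Agent.H470 Pool.Agent

section psi

variable (F : Type) {k : Type} [Field F] [Finite F] [Field k] [Algebra F k]

theorem fr_iter (w ξ c : k) (hξ : fr F k ξ = ξ) (hc : fr F k c = c * ξ) (l : ℕ) :
    (fr F k)^[l] c = c * ξ ^ l := by
  induction l with
  | zero => simp
  | succ l ih =>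
    rw [Function.iterate_succ_apply', ih, map_mul, map_pow, hc, hξ, pow_succ]
    ring

theorem psi_iter' {w : k} (hw : w ≠ 0) (hfw : fr F k w = w) (A : PowerSeries k) (a l : ℕ) :
    ∃ B : PowerSeries k, PowerSeries.constantCoeff B = (fr F k)^[l] (PowerSeries.constantCoeff A) ∧
      (psi F hw)^[l] (lam A 1 a) = lam B (w ^ (a * l)) a := by
  induction l with
  | zero => exact ⟨A, rfl, by rw [mul_zero, pow_zero]; rfl⟩
  | succ l ih =>
    obtain ⟨B, hB, h1⟩ := ih
    refine ⟨psi0 F w B, by rw [psi0_cc, hB, Function.iterate_succ_apply'], ?_⟩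
    rw [Function.iterate_succ_apply', h1, psi_lam, map_pow, hfw, ← pow_add, mul_add, mul_one]

theorem lam_same' {A B : PowerSeries k} {u v : k} {a : ℕ} (hu : u ≠ 0) (hv : v ≠ 0)
    (h : lam A u a = lam B v a) :
    PowerSeries.constantCoeff A * v = PowerSeries.constantCoeff B * u := by
  have h1 := lam_eq hu hv h
  rw [← mul_assoc, ← mul_assoc] at h1
  have h2 := mul_right_cancel₀ (pow_ne_zero _ PowerSeries.X_ne_zero) h1
  have h3 := congrArg PowerSeries.constantCoeff h2
  rw [map_mul, map_mul, PowerSeries.constantCoeff_C, PowerSeries.constantCoeff_C] at h3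
  exact h3

end psi

section roots

variable {k : Type} [Field k]

/-- The root of `g(T) = z ^ (-n a)`, `T = A / z ^ a`. -/
theorem root_g' {g : k[X]} {n a : ℕ} (hgn : g.natDegree = n) (hn : (n : k) ≠ 0)
    (ha : 0 < a) {c : k} (hc : g.leadingCoeff * c ^ n = 1) :
    ∃ A : PowerSeries k, PowerSeries.constantCoeff A = c ∧
      eval₂ ((toPSF k).comp PowerSeries.C) (lam A 1 a) g = (toPSF k (PowerSeries.X ^ (n * a)))⁻¹ := by
  have hn0 : n ≠ 0 := by
    rintro rfl
    exact hn Nat.cast_zero
  have hlc : g.leadingCoeff ≠ 0 := left_ne_zero_of_mul_eq_one hc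
  have hc0 : c ≠ 0 := by
    rintro rfl
    rw [zero_pow hn0, mul_zero] at hc
    exact zero_ne_one hc
  have hCinj : Function.Injective (PowerSeries.C (R := k)) := PowerSeries.C_injective
  set gp : (PowerSeries k)[X] := g.map PowerSeries.C with hgp
  have hgpn : gp.natDegree = n := by rw [hgp, natDegree_map_eq_of_injective hCinj, hgn]
  have hgpl : gp.leadingCoeff = PowerSeries.C g.leadingCoeff := by
    rw [hgp, leadingCoeff_map_of_injective hCinj]
  set f : (PowerSeries k)[X] := gp.scaleRoots (PowerSeries.X ^ a) - C 1 with hf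
  have hgc : gp.map PowerSeries.constantCoeff = g := by
    rw [hgp, Polynomial.map_map]
    have : (PowerSeries.constantCoeff (R := k)).comp PowerSeries.C = RingHom.id k := by
      ext x
      simp
    rw [this, Polynomial.map_id]
  have hfm : f.map PowerSeries.constantCoeff = C g.leadingCoeff * X ^ n - C 1 := by
    rw [hf, Polynomial.map_sub, map_C, map_one, map_scaleRoots, map_pow, PowerSeries.constantCoeff_X,
      zero_pow ha.ne', hgc, scaleRoots_zero, hgn, smul_eq_C_mul]
    rw [hgpl, PowerSeries.constantCoeff_C]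
    exact hlc
  obtain ⟨A, hA, hA1⟩ := hensel f c (by rw [cc_eval, hfm]; simp [hc]) (by
    rw [cc_eval, ← derivative_map, hfm]
    simp [derivative_X_pow, hn, hlc, hc0])
  refine ⟨A, hA1, ?_⟩
  have hX := toX_ne k a
  have h1 := scaleRoots_eval₂_mul (p := gp) (toPSF k) (lam A 1 a) (PowerSeries.X ^ a)
  have h2 : toPSF k (PowerSeries.X ^ a) * lam A 1 a = toPSF k A := by
    unfold lam
    rw [map_one, one_mul]
    field_simp
  rw [h2] at h1
  have h3 : gp.scaleRoots (PowerSeries.X ^ a) = f + C 1 := by rw [hf]; ring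
  rw [eval₂_at_apply, h3, eval_add, hA, eval_C, zero_add, map_one, hgpn, hgp, eval₂_map] at h1
  rw [mul_comm n a, pow_mul, map_pow (toPSF k) (PowerSeries.X ^ a)]
  exact eq_inv_of_mul_eq_one_right h1.symm

end roots

theorem pow_aux {k : Type} [Field k] {W x : k} (hx : x ≠ 0) {l l' : ℕ}
    (h : x ^ l * W ^ l' = x ^ l' * W ^ l) : (W * x⁻¹) ^ l' = (W * x⁻¹) ^ l := by
  rw [mul_pow, mul_pow, inv_pow, inv_pow, ← div_eq_mul_inv, ← div_eq_mul_inv,
    div_eq_div_iff (pow_ne_zero _ hx) (pow_ne_zero _ hx)]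
  linear_combination h

/-- **The cycles at infinity, several polynomials.** -/
theorem inf_fam {F : Type} [Field F] [Finite F] (k : Type) [Field k] [IsAlgClosed k] [Algebra F k]
    {N : ℕ} (hN : 0 < N) (hNF : (N : F) ≠ 0) {ω : F} (hω : ω ^ N = 1) {ι : Type} {g : ι → F[X]}
    (hg : Function.Injective g) {n a : ι → ℕ} (hgn : ∀ i, (g i).natDegree = n i)
    (hna : ∀ i, n i * a i = N) (hnq : ∀ i, n i ∣ Nat.card F - 1)
    (hp : ∀ i, IsPrimitiveRoot
      (ω ^ a i * ((g i).leadingCoeff) ^ ((Nat.card F - 1) / n i)) (n i)) :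
    ∃ (M : Type) (_ : Field M) (_ : Algebra (RatFunc k) M) (_ : Algebra k[X] M)
      (_ : IsScalarTower k[X] (RatFunc k) M) (Ψ : M →+* M) (t : ι → M),
      Semi F (k := k) Ψ ∧ (∀ i, aeval (t i) ((pG (g i)).map (mapRingHom (algebraMap F k))) = 0) ∧
      ∀ i j l l', l < n i → l' < n j → Ψ^[l] (t i) = Ψ^[l'] (t j) → i = j ∧ l = l' := by
  have hn0 : ∀ i, 0 < n i := fun i => Nat.pos_of_ne_zero (by
    intro h
    have := hna i
    rw [h, zero_mul] at this
    omega)
  have ha0 : ∀ i, 0 < a i := fun i => Nat.pos_of_ne_zero (by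
    intro h
    have := hna i
    rw [h, mul_zero] at this
    omega)
  have hnk : ∀ i, (n i : k) ≠ 0 := by
    intro i h
    apply hNF
    rw [← hna i, Nat.cast_mul]
    have h1 : (n i : F) = 0 := by
      apply (algebraMap F k).injective
      rw [map_natCast, h, map_zero]
    rw [h1, zero_mul]
  set w : k := algebraMap F k ω with hw
  have hwN : w ^ N = 1 := by rw [hw, ← map_pow, hω, map_one]
  have hw0 : w ≠ 0 := by
    intro h
    rw [h, zero_pow hN.ne'] at hwN
    exact zero_ne_one hwN
  have hfw : fr F k w = w := fr_algebraMap F k ω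
  letI i1 : Algebra k[X] (PSF k) := (embI k N).toAlgebra
  letI i2 : Algebra (RatFunc k) (PSF k) := (IsFractionRing.lift (embI_inj k hN)).toAlgebra
  haveI i3 : IsScalarTower k[X] (RatFunc k) (PSF k) := IsScalarTower.of_algebraMap_eq fun p =>
    (IsFractionRing.lift_algebraMap (embI_inj k hN) p).symm
  have haC : ∀ c : k, algebraMap k[X] (PSF k) (C c) = toPSF k (PowerSeries.C c) := embI_C k _
  have haX : algebraMap k[X] (PSF k) X = (toPSF k (PowerSeries.X ^ N))⁻¹ := embI_X k _
  have hΨ : Semi F (k := k) (psi F hw0) := by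
    refine ⟨?_, ?_⟩
    · intro c
      rw [haC, haC, psi_to, psi0_C]
    · rw [haX, map_inv₀, psi_to, map_pow, psi0_X, mul_pow, ← map_pow, hwN, map_one, one_mul]
  -- the leading coefficients
  set b : ι → F := fun i => (g i).leadingCoeff with hb
  have hgne : ∀ i, g i ≠ 0 := by
    intro i h
    have := hgn i
    rw [h, natDegree_zero] at this
    exact absurd this (hn0 i).ne
  have hb0 : ∀ i, b i ≠ 0 := fun i => leadingCoeff_ne_zero.2 (hgne i)
  have hbk : ∀ i, algebraMap F k (b i) ≠ 0 := fun i => by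
    rw [Ne, map_eq_zero]
    exact hb0 i
  have hc : ∀ i, ∃ c : k, algebraMap F k (b i) * c ^ n i = 1 := by
    intro i
    obtain ⟨c, hc⟩ := IsAlgClosed.exists_pow_nat_eq (algebraMap F k (b i))⁻¹ (hn0 i)
    exact ⟨c, by rw [hc, mul_inv_cancel₀ (hbk i)]⟩
  choose c hc using hc
  have hc0 : ∀ i, c i ≠ 0 := by
    intro i h
    have := hc i
    rw [h, zero_pow (hn0 i).ne', mul_zero] at this
    exact zero_ne_one this
  set ξ : ι → k := fun i => (algebraMap F k ((b i) ^ ((Nat.card F - 1) / n i)))⁻¹ with hξ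
  have hfξ : ∀ i, fr F k (ξ i) = ξ i := by
    intro i
    rw [hξ]
    simp only [map_inv₀, fr_algebraMap]
  have hfc : ∀ i, fr F k (c i) = c i * ξ i := by
    intro i
    rw [fr_apply]
    have h1 : Nat.card F = 1 + n i * ((Nat.card F - 1) / n i) := by
      rw [Nat.mul_div_cancel' (hnq i)]
      have := Finite.one_lt_card (α := F)
      omega
    conv_lhs => rw [h1]
    rw [pow_add, pow_one, pow_mul]
    congr 1
    have h2 : c i ^ n i = (algebraMap F k (b i))⁻¹ := by
      have := hc i
      rw [mul_comm] at this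
      exact eq_inv_of_mul_eq_one_left this
    rw [h2]
    show ((algebraMap F k (b i))⁻¹) ^ ((Nat.card F - 1) / n i) =
      (algebraMap F k ((b i) ^ ((Nat.card F - 1) / n i)))⁻¹
    rw [inv_pow, map_pow]
  have hA : ∀ i, ∃ A : PowerSeries k, PowerSeries.constantCoeff A = c i ∧
      eval₂ ((toPSF k).comp PowerSeries.C) (lam A 1 (a i)) ((g i).map (algebraMap F k)) =
        (toPSF k (PowerSeries.X ^ (n i * a i)))⁻¹ := by
    intro i
    refine root_g' (by rw [natDegree_map, hgn]) (hnk i) (ha0 i) ?_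
    rw [leadingCoeff_map]
    exact hc i
  choose A hA1 hA using hA
  have hrt : ∀ i, aeval (lam (A i) 1 (a i)) ((pG (g i)).map (mapRingHom (algebraMap F k))) = 0 := by
    intro i
    rw [ev_g, haX, ← hna i, ← hA, eval₂_map, sub_eq_zero]
    congr 1
    ext x
    simp only [RingHom.comp_apply]
    rw [haC]
  have hpow : ∀ j, w ^ j ≠ 0 := fun j => pow_ne_zero _ hw0
  refine ⟨PSF k, inferInstance, i2, i1, i3, psi F hw0, fun i => lam (A i) 1 (a i), hΨ, hrt, ?_⟩
  intro i j l l' hl hl' h
  have hij : i = j := by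
    by_contra hne
    have h1 := root_iter hΨ _ (hrt i) l
    have h2 := root_iter hΨ _ (hrt j) l'
    rw [ev_g, sub_eq_zero] at h1 h2
    rw [h] at h1
    set T : PSF k := (psi F hw0)^[l'] (lam (A j) 1 (a j)) with hT
    set φ : F →+* PSF k := (algebraMap k[X] (PSF k)).comp (C.comp (algebraMap F k)) with hφ
    have h3 : eval₂ φ T (g i - g j) = 0 := by
      rw [eval₂_sub, h1, h2, sub_self]
    have hd0 : g i - g j ≠ 0 := sub_ne_zero.2 fun h4 => hne (hg h4)
    -- `T` is a constant
    obtain ⟨x, hx⟩ : ∃ x : k, T = toPSF k (PowerSeries.C x) := by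
      have hs := (IsAlgClosed.splits ((g i - g j).map (algebraMap F k))).map
        ((toPSF k).comp PowerSeries.C)
      have h5 : (((g i - g j).map (algebraMap F k)).map ((toPSF k).comp PowerSeries.C)).eval T = 0 := by
        rw [Polynomial.map_map, eval_map]
        have h6 : ((toPSF k).comp PowerSeries.C).comp (algebraMap F k) = φ := by
          ext y
          simp only [hφ, RingHom.comp_apply]
          rw [haC]
        rw [h6]
        exact h3
      have h7 : T ∈ (((g i - g j).map (algebraMap F k)).map ((toPSF k).comp PowerSeries.C)).roots := by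
        rw [mem_roots]
        · exact h5
        · rw [Polynomial.map_ne_zero_iff ((toPSF k).comp PowerSeries.C).injective,
            Polynomial.map_ne_zero_iff (algebraMap F k).injective]
          exact hd0
      rw [(IsAlgClosed.splits ((g i - g j).map (algebraMap F k))).roots_map, Multiset.mem_map] at h7
      obtain ⟨x, -, hx⟩ := h7
      exact ⟨x, hx.symm⟩
    -- a contradiction
    have h8 : algebraMap k[X] (PSF k) X =
        algebraMap k[X] (PSF k) (C (eval₂ (algebraMap F k) x (g i))) := by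
      rw [← h1, haC, hx]
      rw [← RingHom.comp_apply, ← RingHom.comp_apply, hom_eval₂]
      congr 1
      ext y
      simp only [hφ, RingHom.comp_apply]
      rw [haC]
    have h9 := embI_inj k hN h8
    have h10 := congrArg natDegree h9
    rw [natDegree_X, natDegree_C] at h10
    exact one_ne_zero h10
  refine ⟨hij, ?_⟩
  subst hij
  obtain ⟨B1, h1, h2⟩ := psi_iter' F hw0 hfw (A i) (a i) l
  obtain ⟨B2, h3, h4⟩ := psi_iter' F hw0 hfw (A i) (a i) l'
  have h' : (psi F hw0)^[l] (lam (A i) 1 (a i)) = (psi F hw0)^[l'] (lam (A i) 1 (a i)) := h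
  rw [h2, h4] at h'
  have h5 := lam_same' (hpow _) (hpow _) h'
  rw [h1, h3, hA1, fr_iter F w (ξ i) (c i) (hfξ i) (hfc i), fr_iter F w (ξ i) (c i) (hfξ i) (hfc i)] at h5
  -- the primitive root
  have hζ : IsPrimitiveRoot (w ^ a i * (ξ i)⁻¹) (n i) := by
    have h6 := (hp i).map_of_injective (algebraMap F k).injective
    rw [map_mul, map_pow, ← hw] at h6
    rw [hξ]
    simp only [inv_inv]
    exact h6
  have hξ0 : ξ i ≠ 0 := by
    rw [hξ]
    simp only
    rw [map_pow]
    exact inv_ne_zero (pow_ne_zero _ (hbk i))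
  have h7 : (w ^ a i * (ξ i)⁻¹) ^ l' = (w ^ a i * (ξ i)⁻¹) ^ l := by
    have h10 : c i * (ξ i ^ l * w ^ (a i * l')) = c i * (ξ i ^ l' * w ^ (a i * l)) := by
      linear_combination h5
    have h11 := mul_left_cancel₀ (hc0 i) h10
    rw [pow_mul, pow_mul] at h11
    exact pow_aux hξ0 h11
  exact (hζ.pow_inj hl' hl h7).symm

end Run7.h905.CB
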