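import Pool.Agent.Run7.h905.CB.Cg

/-!
# Simultaneous irreducibility: a zero of the discriminant over the algebraic closure
-/

set_option autoImplicit false
set_option linter.all false
set_option maxHeartbeats 400000

open Polynomial

namespace Run7.h905.CB

open Pool.Agent.H470 Pool.Agent

theorem pG_mapF {F k : Type} [Field F] [Field k] [Algebra F k] (g : F[X]) :
    (pG g).map (mapRingHom (algebraMap F k)) = pG (g.map (algebraMap F k)) := by
  unfold pG
  rw [Polynomial.map_sub, map_C, coe_mapRingHom, map_X, Polynomial.map_map, Polynomial.map_map]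
  congr 2
  apply RingHom.ext
  intro x
  simp

theorem pP_mapF {F k : Type} [Field F] [Field k] [Algebra F k] (s : ℕ) (d : F) :
    (pP s d).map (mapRingHom (algebraMap F k)) = pP s (algebraMap F k d) := by
  unfold pP
  simp

theorem kd (n s r : ℕ) (hn : 0 < n) (hs : 0 < s) (hns : n ≠ s) : ∃ C0 : ℕ,
    ∀ (F : Type) [Field F] [Finite F], (2 : F) ≠ 0 → ∀ ω : F, IsPrimitiveRoot ω (n * s) →
    ∀ g : F[X], g.Monic → g.natDegree = n → ∀ d : Fin r → F, Function.Injective d →
    ∀ (Δ : F[X]) (a : AlgebraicClosure F) (E : (AlgebraicClosure F)[X]), Δ.natDegree ≤ 2 →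
    Δ.map (algebraMap F (AlgebraicClosure F)) = (X - C a) * E → E.eval a ≠ 0 →
    (g.map (algebraMap F (AlgebraicClosure F)) - C a).Separable →
    (∀ i, a ≠ algebraMap F (AlgebraicClosure F) (d i)) →
    C0 < Nat.card F → Nat.card F ≤ 2 * (n + r * s + 2) ^ (n + r * s + 2) *
      {μ : F | Irreducible (g - C μ) ∧ (∀ i, Irreducible (X ^ s - C (μ - d i))) ∧
        Irreducible (X ^ 2 - C (Δ.eval μ))}.ncard := by
  classical
  have hmK : ∀ i, 0 < mK n s r i := by
    intro i
    rcases i with _ | _ | i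
    · exact two_pos
    · exact hn
    · exact hs
  have hsum : ∑ i, mK n s r i = n + r * s + 2 := by
    rw [Fintype.sum_option, Fintype.sum_option]
    simp only [mK, Finset.sum_const, Finset.card_univ, Fintype.card_fin, smul_eq_mul]
    ring
  obtain ⟨C0, hC0⟩ := cyc (mK n s r) hmK ⟨none⟩ 2
  refine ⟨C0, ?_⟩
  intro F _ _ h2 ω hω g hg hgn d hd Δ a E hΔd hΔE hEa hsep had hcard
  have hsF : (s : F) ≠ 0 := by
    haveI : NeZero (n * s) := ⟨(Nat.mul_pos hn hs).ne'⟩
    have h1 := hω.neZero'.out
    rw [Nat.cast_mul] at h1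
    exact right_ne_zero_of_mul h1
  let k := AlgebraicClosure F
  obtain ⟨M, iF, iK, iX, iT, Ψ, t, β, hΨ, ht, hβ, htt, hββ, htβ⟩ :=
    inf_data k hn hs hns hω hg hgn hd
  have hpG := pG_monic hg (by rw [hgn]; exact hn)
  have hpP : ∀ i, (pP s (d i)).Monic := fun i => pP_monic hs.ne' (d i)
  set G1 : F[X][X] := pG g * ∏ i, pP s (d i) with hG1
  have hG1m : G1.Monic := hpG.mul (monic_prod_of_monic _ _ fun i _ => hpP i)
  set mr := mapRingHom (algebraMap F k) with hmr
  have hsplitM : ((G1.map mr).map (algebraMap k[X] M)).Splits := by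
    rw [hG1, Polynomial.map_mul, Polynomial.map_mul, Polynomial.map_prod, Polynomial.map_prod]
    refine Splits.mul (splits_of_cycle hΨ _ hpG (by rw [pG_deg, hgn]) ht htt)
      (Splits.prod fun i _ => splits_of_cycle hΨ _ (hpP i) (pP_deg s (d i)) (hβ i) fun l l' hl hl' h =>
        (hββ i i l l' hl hl' h).2)
  set GK : (RatFunc k)[X] := (G1.map mr).map (algebraMap k[X] (RatFunc k)) with hGK
  have hGK0 : GK ≠ 0 := ((hG1m.map _).map _).ne_zero
  have hsplitM' : (GK.map (algebraMap (RatFunc k) M)).Splits := by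
    rw [hGK, Polynomial.map_map, ← IsScalarTower.algebraMap_eq]
    exact hsplitM
  set S : Set M := GK.rootSet M with hS
  have hSmem : ∀ x, x ∈ S ↔ aeval x (G1.map mr) = 0 := by
    intro x
    rw [hS, mem_rootSet, hGK, aeval_map_algebraMap]
    exact ⟨fun h => h.2, fun h => ⟨hGK0, h⟩⟩
  have hSst : ∀ x ∈ S, Ψ x ∈ S := fun x hx => by
    rw [hSmem] at hx ⊢
    exact root_step hΨ G1 hx
  have htS : t ∈ S := by
    rw [hSmem, hG1, Polynomial.map_mul, map_mul, ht, zero_mul]
  have hβS : ∀ i, β i ∈ S := by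
    intro i
    rw [hSmem, hG1, Polynomial.map_mul, map_mul, Polynomial.map_prod, map_prod,
      Finset.prod_eq_zero (Finset.mem_univ i) (hβ i), mul_zero]
  set Ω := IntermediateField.adjoin (RatFunc k) S with hΩ
  haveI hspl : IsSplittingField (RatFunc k) Ω GK :=
    IntermediateField.adjoin_rootSet_isSplittingField hsplitM'
  -- no square root
  obtain ⟨P, jF, jA, hP1, hP2⟩ := fin_data (k := k) a
  have hP3 : ∀ Q : F[X][X], Q.Monic → ((Q.map mr).map (evalRingHom a)).Separable →
      (((Q.map mr).map (algebraMap k[X] (RatFunc k))).map (algebraMap (RatFunc k) P)).Splits := by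
    intro Q hQ hQs
    exact hP1 _ (hQ.map _) hQs
  have hsplitP : (GK.map (algebraMap (RatFunc k) P)).Splits := by
    rw [hGK, hG1, Polynomial.map_mul, Polynomial.map_mul, Polynomial.map_mul, Polynomial.map_prod,
      Polynomial.map_prod, Polynomial.map_prod]
    refine Splits.mul (hP3 _ hpG ?_) (Splits.prod fun i _ => hP3 _ (hpP i) ?_)
    · rw [hmr, pG_mapF, pG_spec]
      exact hsep
    · rw [hmr, pP_mapF, pP_spec]
      refine separable_X_pow_sub_C _ ?_ (sub_ne_zero.2 (had i))
      rw [← map_natCast (algebraMap F k), Ne, map_eq_zero]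
      exact hsF
  have hnsΩ : ∀ w : Ω, w ^ 2 ≠ algebraMap k[X] Ω (Δ.map (algebraMap F k)) := by
    intro w hw
    let φ : Ω →ₐ[RatFunc k] P := IsSplittingField.lift Ω GK hsplitP
    have h1 := congrArg φ hw
    rw [map_pow, IsScalarTower.algebraMap_apply k[X] (RatFunc k) Ω, AlgHom.commutes] at h1
    refine hP2 E hEa (φ w) ?_
    rw [h1, hΔE]
  have h2Ω : (2 : Ω) ≠ 0 := by
    intro h
    apply h2
    have h3 : ((algebraMap k[X] Ω).comp ((C : k →+* k[X]).comp (algebraMap F k))) 2 = 0 := by
      rw [map_ofNat, h]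
    exact (map_eq_zero _).1 h3
  -- the quadratic extension
  have hΦ : Semi F (k := k) (psiR hΨ hSst) := by
    refine ⟨?_, ?_⟩
    · intro c
      apply Subtype.ext
      rw [psiR_coe]
      exact hΨ.C c
    · apply Subtype.ext
      rw [psiR_coe]
      exact hΨ.X
  obtain ⟨M', kF, kK, kX, kT, Φ', j, δ, hΦ', hΦj, hjalg, hδ, hΦδ, hδ2, hjδ, hjδ'⟩ :=
    quad_ext hΦ Δ hnsΩ h2Ω
  have hjinj : Function.Injective j := j.injective
  have hiter : ∀ (x : Ω) (l : ℕ), Φ'^[l] (j x) = j ((psiR hΨ hSst)^[l] x) := by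
    intro x l
    induction l with
    | zero => rfl
    | succ l ih => rw [Function.iterate_succ_apply', Function.iterate_succ_apply', ih, hΦj]
  have hroot : ∀ (Q : F[X][X]) (x : Ω), aeval (x : M) (Q.map mr) = 0 →
      aeval (j x) (Q.map mr) = 0 := by
    intro Q x hx
    let emb : Ω →ₐ[k[X]] M := (Ω.val).restrictScalars k[X]
    have h1 : aeval x (Q.map mr) = 0 := by
      apply emb.toRingHom.injective
      show emb _ = emb _
      rw [map_zero, ← hx, ← aeval_algHom_apply]
      rfl
    have h3 := congrArg j h1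
    rw [map_zero, aeval_def, hom_eval₂] at h3
    have h4 : j.comp (algebraMap k[X] Ω) = algebraMap k[X] M' := RingHom.ext hjalg
    rw [h4] at h3
    exact h3
  set t' : Ω := ⟨t, IntermediateField.subset_adjoin _ _ htS⟩ with ht'
  set β' : Fin r → Ω := fun i => ⟨β i, IntermediateField.subset_adjoin _ _ (hβS i)⟩ with hβ'
  let y : Option (Option (Fin r)) → M' := fun o =>
    match o with
    | none => δ
    | some none => j t'
    | some (some i) => j (β' i)
  have hit : ∀ l, Φ'^[l] (j t') = j ((psiR hΨ hSst)^[l] t') := hiter t'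
  have hct : ∀ l, (((psiR hΨ hSst)^[l] t' : Ω) : M) = Ψ^[l] t := fun l => psiR_iter hΨ hSst t' l
  have hcβ : ∀ i l, (((psiR hΨ hSst)^[l] (β' i) : Ω) : M) = Ψ^[l] (β i) := fun i l =>
    psiR_iter hΨ hSst (β' i) l
  have hδl : ∀ l, l < 2 → Φ'^[l] δ = δ ∧ l = 0 ∨ Φ'^[l] δ = -δ ∧ l = 1 := by
    intro l hl
    interval_cases l
    · exact Or.inl ⟨rfl, rfl⟩
    · exact Or.inr ⟨hΦδ, rfl⟩
  have hδj : ∀ l x, l < 2 → Φ'^[l] δ ≠ j x := by
    intro l x hl h
    rcases hδl l hl with ⟨h1, -⟩ | ⟨h1, -⟩
    · exact hjδ x (by rw [← h, h1])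
    · exact hjδ' x (by rw [← h, h1])
  have hfin := hC0 F k M' Φ' hΦ' (PK g s d Δ) (by
      intro i
      rcases i with _ | _ | i
      · exact pQ_monic Δ
      · exact hpG
      · exact hpP i) (by
      intro i
      rcases i with _ | _ | i
      · exact pQ_deg Δ
      · exact (pG_deg).trans hgn
      · exact pP_deg s (d i)) (by
      intro i l
      rcases i with _ | _ | i
      · exact pQ_coef hΔd l
      · exact (pG_coef g l).trans one_le_two
      · exact (pP_coef s (d i) l).trans one_le_two) y (by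
      intro i
      rcases i with _ | _ | i
      · exact hδ
      · exact hroot _ _ ht
      · exact hroot _ _ (hβ i)) (by
      intro i i' l l' hl hl' h
      rcases i with _ | _ | i <;> rcases i' with _ | _ | i'
      · refine ⟨rfl, ?_⟩
        have h' : Φ'^[l] δ = Φ'^[l'] δ := h
        rcases hδl l hl with ⟨h3, h4⟩ | ⟨h3, h4⟩ <;> rcases hδl l' hl' with ⟨h5, h6⟩ | ⟨h5, h6⟩
        · rw [h4, h6]
        · rw [h3, h5] at h'
          exact absurd h' hδ2
        · rw [h3, h5] at h'
          exact absurd h'.symm hδ2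
        · rw [h4, h6]
      · have h' : Φ'^[l] δ = Φ'^[l'] (j t') := h
        rw [hiter] at h'
        exact absurd h' (hδj l _ hl)
      · have h' : Φ'^[l] δ = Φ'^[l'] (j (β' i')) := h
        rw [hiter] at h'
        exact absurd h' (hδj l _ hl)
      · have h' : Φ'^[l] (j t') = Φ'^[l'] δ := h
        rw [hiter] at h'
        exact absurd h'.symm (hδj l' _ hl')
      · have h' : Φ'^[l] (j t') = Φ'^[l'] (j t') := h
        rw [hiter, hiter] at h'
        have h3 := congrArg (fun x : Ω => (x : M)) (hjinj h')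
        simp only [hct] at h3
        exact ⟨rfl, htt l l' hl hl' h3⟩
      · have h' : Φ'^[l] (j t') = Φ'^[l'] (j (β' i')) := h
        rw [hiter, hiter] at h'
        have h3 := congrArg (fun x : Ω => (x : M)) (hjinj h')
        simp only [hct, hcβ] at h3
        exact absurd h3 (htβ l l' i')
      · have h' : Φ'^[l] (j (β' i)) = Φ'^[l'] δ := h
        rw [hiter] at h'
        exact absurd h'.symm (hδj l' _ hl')
      · have h' : Φ'^[l] (j (β' i)) = Φ'^[l'] (j t') := h
        rw [hiter, hiter] at h'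
        have h3 := congrArg (fun x : Ω => (x : M)) (hjinj h')
        simp only [hct, hcβ] at h3
        exact absurd h3.symm (htβ l' l i)
      · have h' : Φ'^[l] (j (β' i)) = Φ'^[l'] (j (β' i')) := h
        rw [hiter, hiter] at h'
        have h3 := congrArg (fun x : Ω => (x : M)) (hjinj h')
        simp only [hcβ] at h3
        obtain ⟨h4, h5⟩ := hββ i i' l l' hl hl' h3
        exact ⟨by rw [h4], h5⟩) hcard
  rw [hsum] at hfin
  refine hfin.trans (Nat.mul_le_mul_left _ (Set.ncard_le_ncard ?_ (Set.toFinite _)))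
  intro μ hμ
  refine ⟨?_, ?_, ?_⟩
  · have h1 := hμ (some none)
    rw [← pG_spec]
    exact h1
  · intro i
    have h1 := hμ (some (some i))
    rw [← pP_spec]
    exact h1
  · have h1 := hμ none
    rw [← pQ_spec]
    exact h1

end Run7.h905.CB
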